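import Pool.Agent.N183.U8.Stm

/-!
# Representations of the special linear Lie algebra, equivariant for pairs of involutions
-/

set_option autoImplicit false
set_option linter.unusedSectionVars false

namespace Pool.Agent.N297.GSCsl

open Module Pool.Agent.N183.U8

section abstract

variable {ι R : Type} [DecidableEq ι] [AddCommGroup R] [Module ℂ R]

/-- The images of the matrix units. -/
structure Dat (N : ι → ι → End ℂ R) : Prop where
  br : ∀ i j k l, i ≠ j → k ≠ l → N i j * N k l - N k l * N i j =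
    (if j = k then N i l else 0) - (if l = i then N k j else 0)
  bh : ∀ i j, i ≠ j → (N i i - N j j) * N i j - N i j * (N i i - N j j) = N i j + N i j

variable {N : ι → ι → End ℂ R} (hN : Dat N)

include hN

theorem Dat.br1 {i j l : ι} (hij : i ≠ j) (hjl : j ≠ l) (hil : i ≠ l) :
    N i j * N j l - N j l * N i j = N i l := by
  rw [hN.br i j j l hij hjl, if_pos rfl, if_neg (Ne.symm hil), sub_zero]

theorem Dat.br0 {i j k l : ι} (hij : i ≠ j) (hkl : k ≠ l) (hjk : j ≠ k) (hli : l ≠ i) :
    N i j * N k l = N k l * N i j := by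
  have := hN.br i j k l hij hkl
  rw [if_neg hjk, if_neg hli, sub_zero] at this
  exact sub_eq_zero.1 this

theorem Dat.brh {i j : ι} (hij : i ≠ j) : N i j * N j i - N j i * N i j = N i i - N j j := by
  rw [hN.br i j j i hij (Ne.symm hij), if_pos rfl, if_pos rfl]

/-- the transposed data -/
theorem Dat.tr : Dat (fun i j => -N j i) := by
  refine ⟨fun i j k l hij hkl => ?_, fun i j hij => ?_⟩
  · have := hN.br j i l k (Ne.symm hij) (Ne.symm hkl)
    rw [neg_mul_neg, neg_mul_neg, this]
    by_cases h1 : i = l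
    · by_cases h2 : j = k
      · simp only [h1, h2, if_true]
        abel
      · simp [h1, h2, Ne.symm h2]
    · by_cases h2 : j = k
      · simp [h1, h2, Ne.symm h1]
      · simp [h1, h2, Ne.symm h1, Ne.symm h2]
  · have := hN.bh j i (Ne.symm hij)
    have e : (-N i i - -N j j) = N j j - N i i := by abel
    rw [e, mul_neg, neg_mul, sub_neg_eq_add, ← neg_add, ← this]
    abel

omit hN in
theorem self_neg {X : End ℂ R} (h : X = -X) : X = 0 := by
  have h2 : (2 : ℂ) • X = 0 := by
    rw [two_smul]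
    nth_rewrite 1 [h]
    exact neg_add_cancel X
  exact (smul_eq_zero.1 h2).resolve_left two_ne_zero

/-- from one square to a column -/
theorem Dat.col {x y z : ι} (hxy : x ≠ y) (hzy : z ≠ y) (hxz : x ≠ z) (h : N z y * N z y = 0) :
    N x y * N z y = 0 := by
  have h1 := hN.br1 hxz hzy hxy
  have h2 := hN.br0 hxy hzy (Ne.symm hzy) (Ne.symm hxy)
  have e1 : N x y * N z y = -(N z y * N x z * N z y) := by
    rw [← h1, sub_mul, mul_assoc, h, mul_zero, zero_sub]
  have e2 : N z y * N x y = N z y * N x z * N z y := by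
    rw [← h1, mul_sub, ← mul_assoc, ← mul_assoc, h, zero_mul, sub_zero]
  apply self_neg
  conv_rhs => rw [h2, e2]
  exact e1

theorem core (s : ι → Bool)
    (hp : ∀ i j k l, s i = true → s j = false → s k = true → s l = false → N i j * N k l = 0)
    (hm : ∀ i j k l, s i = false → s j = true → s k = false → s l = true → N i j * N k l = 0)
    {a b c : ι} (ha : s a = true) (hb : s b = true) (hab : a ≠ b) (hc : s c = false)
    (hq : (∃ c', c' ≠ c ∧ s c' = false) ∨ (∀ j, s j = true → j = a ∨ j = b)) (v : R) :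
    ∃ F : ι → R, F a = N a c (N c b v) ∧
      ∀ i j, i ≠ j → ∀ k, N i j (F k) = if j = k then F i else 0 := by
  have hne : ∀ i j, s i = true → s j = false → i ≠ j := by
    rintro i j h1 h2 rfl
    rw [h1] at h2
    exact Bool.noConfusion h2
  have hac : a ≠ c := hne a c ha hc
  have hbc : b ≠ c := hne b c hb hc
  -- the product `N a j * N c b`
  have hajcb : ∀ j, s j = true → j ≠ a → N a j * N c b = 0 := by
    intro j hj hja
    rcases hq with ⟨c', hcc, hc'⟩ | hq
    · have hac' : a ≠ c' := hne a c' ha hc'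
      have hjc' : j ≠ c' := hne j c' hj hc'
      have h1 := hN.br1 hac' (Ne.symm hjc') (Ne.symm hja)
      have h2 := hN.br0 hac' (Ne.symm hbc) hcc (Ne.symm hab)
      rw [← h1, sub_mul, mul_assoc, hm c' j c b hc' hj hc hb, mul_zero, mul_assoc, h2,
        ← mul_assoc, hm c' j c b hc' hj hc hb, zero_mul, sub_zero]
    · rcases hq j hj with h | h
      · exact absurd h hja
      · subst h
        exact hN.col hab (Ne.symm hbc) hac (hm c j c j hc hb hc hb)
  set m : R := N a c (N c b v) with hmdef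
  have mulm : ∀ X : End ℂ R, X m = (X * N a c * N c b) v := fun X => rfl
  -- (K1)
  have K1 : ∀ i j, s i = true → s j = false → N i j m = 0 := by
    intro i j hi hj
    rw [mulm, hp i j a c hi hj ha hc, zero_mul, LinearMap.zero_apply]
  -- (K2)
  have K2 : ∀ i j, s i = false → s j = true → j ≠ a → N i j m = 0 := by
    intro i j hi hj hja
    have hij : i ≠ j := Ne.symm (hne j i hj hi)
    have h1 := hN.br i j a c hij hac
    rw [if_neg hja, zero_sub] at h1
    have h2 : N i j * N a c = N a c * N i j - (if c = i then N a j else 0) := by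
      rw [sub_eq_iff_eq_add] at h1
      rw [h1]
      abel
    rw [mulm, h2, sub_mul, mul_assoc, hm i j c b hi hj hc hb, mul_zero, zero_sub]
    by_cases hci : c = i
    · rw [if_pos hci, hajcb j hj hja, neg_zero, LinearMap.zero_apply]
    · rw [if_neg hci, zero_mul, neg_zero, LinearMap.zero_apply]
  have kbr : ∀ i j k, i ≠ j → j ≠ k → i ≠ k → N i j m = 0 → N j k m = 0 → N i k m = 0 := by
    intro i j k h1 h2 h3 h4 h5
    rw [← hN.br1 h1 h2 h3, LinearMap.sub_apply, Module.End.mul_apply, Module.End.mul_apply,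
      h4, h5, map_zero, map_zero, sub_zero]
  have K : ∀ i j, i ≠ j → j ≠ a → N i j m = 0 := by
    intro i j hij hja
    cases hi : s i <;> cases hj : s j
    · -- both negative, via b
      exact kbr i b j (Ne.symm (hne b i hb hi)) (hne b j hb hj) hij
        (K2 i b hi hb (Ne.symm hab)) (K1 b j hb hj)
    · exact K2 i j hi hj hja
    · exact K1 i j hi hj
    · exact kbr i c j (hne i c hi hc) (Ne.symm (hne j c hj hc)) hij (K1 i c hi hc)
        (K2 c j hc hj hja)
  -- (H)
  have H : ∀ j, j ≠ a → (N a a - N j j) m = m := by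
    have Hc : (N a a - N c c) m = m := by
      have h1 := hN.brh hac
      have h2 := hN.bh a c hac
      have h3 : N a c * N a c = 0 := hp a c a c ha hc ha hc
      have h4 : N a c * N c a * N a c = N a c := by
        rw [← h1, sub_mul, mul_sub, mul_assoc (N c a), h3, mul_zero, sub_zero, ← mul_assoc,
          ← mul_assoc, h3, zero_mul, zero_sub, sub_neg_eq_add, ← two_smul ℂ,
          ← two_smul ℂ (N a c)] at h2
        exact smul_right_injective _ (two_ne_zero (α := ℂ)) h2
      rw [← h1, mulm, sub_mul, h4, mul_assoc (N c a), h3, mul_zero, sub_zero]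
      rfl
    intro j hja
    by_cases hjc : j = c
    · rw [hjc]
      exact Hc
    · have h1 := hN.brh (Ne.symm hjc)
      have h2 : N a a - N j j = (N a a - N c c) + (N c c - N j j) := by abel
      rw [h2, LinearMap.add_apply, Hc, ← h1, LinearMap.sub_apply, Module.End.mul_apply,
        Module.End.mul_apply, K j c hjc (Ne.symm hac), K c j (Ne.symm hjc) hja, map_zero, map_zero,
        sub_zero, add_zero]
  -- (iii)
  have sq : N c a * N c a = 0 := hm c a c a hc ha hc ha
  have s1 : ∀ i, i ≠ a → N i a * N c a = 0 := by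
    intro i hia
    by_cases hic : i = c
    · rw [hic]
      exact sq
    · exact hN.col hia (Ne.symm hac) hic sq
  have s2 : ∀ i k, i ≠ a → k ≠ a → N i a * N k a = 0 := by
    intro i k hia hka
    by_cases hkc : k = c
    · rw [hkc]
      exact s1 i hia
    · by_cases hic : i = c
      · rw [hic, hN.br0 (Ne.symm hac) hka (Ne.symm hka) hac]
        exact s1 k hka
      · have h1 := hN.br1 hkc (Ne.symm hac) hka
        have h2 := hN.br0 hia hkc (Ne.symm hka) (Ne.symm hic)
        rw [← h1, mul_sub, ← mul_assoc, h2, mul_assoc, s1 i hia, mul_zero, ← mul_assoc, s1 i hia,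
          zero_mul, sub_zero]
  refine ⟨fun k => if k = a then m else N k a m, if_pos rfl, fun i j hij k => ?_⟩
  by_cases hka : k = a
  · subst hka
    simp only [if_true]
    by_cases hjk : j = k
    · subst hjk
      simp only [if_true]
      rw [if_neg hij]
    · rw [if_neg hjk]
      exact K i j hij hjk
  · simp only [if_neg hka]
    by_cases hja : j = a
    · subst hja
      rw [if_neg (Ne.symm hka), ← Module.End.mul_apply, s2 i k hij hka, LinearMap.zero_apply]
    · have h1 := hN.br i j k a hij hka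
      have h2 : N i j (N k a m) = N k a (N i j m) +
          ((if j = k then N i a else 0) - (if a = i then N k j else 0)) m := by
        rw [← h1, LinearMap.sub_apply, Module.End.mul_apply, Module.End.mul_apply]
        abel
      rw [h2, K i j hij hja, map_zero, zero_add, LinearMap.sub_apply]
      by_cases hia : i = a
      · subst hia
        rw [if_pos rfl]
        by_cases hjk : j = k
        · subst hjk
          rw [if_pos rfl, if_pos rfl, if_pos rfl, ← LinearMap.sub_apply]
          exact H j hja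
        · rw [if_neg hjk, if_neg hjk, K k j (Ne.symm hjk) hja, LinearMap.zero_apply, sub_zero]
      · rw [if_neg (Ne.symm hia), if_neg hia, LinearMap.zero_apply, sub_zero]
        by_cases hjk : j = k
        · rw [if_pos hjk, if_pos hjk]
        · rw [if_neg hjk, if_neg hjk, LinearMap.zero_apply]

/-- if one of the operators is zero then all are -/
theorem allZero {a b c : ι} (hab : a ≠ b) (hac : a ≠ c) (hbc : b ≠ c) (h : N a b = 0) :
    ∀ i j, i ≠ j → N i j = 0 := by
  have h1 : ∀ i, i ≠ b → N i b = 0 := by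
    intro i hib
    by_cases hia : i = a
    · rw [hia, h]
    · rw [← hN.br1 hia hab hib, h, mul_zero, zero_mul, sub_zero]
  have h2 : ∀ i j, i ≠ j → i ≠ b → j ≠ b → N i j = 0 := by
    intro i j hij hib hjb
    rw [← hN.br1 hib (Ne.symm hjb) hij, h1 i hib, mul_zero, zero_mul, sub_zero]
  have h3 : ∀ i j, i ≠ j → i ≠ b → N i j = 0 := by
    intro i j hij hib
    by_cases hjb : j = b
    · rw [hjb]
      exact h1 i hib
    · exact h2 i j hij hib hjb
  intro i j hij
  by_cases hib : i = b
  · subst hib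
    obtain ⟨z, hzi, hzj⟩ : ∃ z, z ≠ i ∧ z ≠ j := by
      by_cases hja : j = a
      · exact ⟨c, Ne.symm hbc, by rw [hja]; exact Ne.symm hac⟩
      · exact ⟨a, hab, Ne.symm hja⟩
    rw [← hN.br1 (Ne.symm hzi) hzj hij, h3 z j hzj hzi, mul_zero, zero_mul, sub_zero]
  · exact h3 i j hij hib

end abstract

/-! ### Rank one operators -/

section el

variable {U R : Type} [AddCommGroup U] [Module ℂ U] [AddCommGroup R] [Module ℂ R]

/-- Rank one operators. -/
def el (x : U) (φ : Dual ℂ U) : End ℂ U := LinearMap.smulRight φ x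

theorem el_apply (x : U) (φ : Dual ℂ U) (u : U) : el x φ u = φ u • x := rfl

theorem el_mul (x : U) (φ : Dual ℂ U) (y : U) (ψ : Dual ℂ U) :
    el x φ * el y ψ = φ y • el x ψ := by
  ext u
  simp only [Module.End.mul_apply, el_apply, LinearMap.smul_apply, map_smul, smul_smul]
  rw [mul_comm]

theorem mul_el (A : End ℂ U) (x : U) (φ : Dual ℂ U) : A * el x φ = el (A x) φ := by
  ext u
  simp only [Module.End.mul_apply, el_apply, map_smul]

theorem el_mul' (A : End ℂ U) (x : U) (φ : Dual ℂ U) : el x φ * A = el x (φ.comp A) := by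
  ext u
  simp only [Module.End.mul_apply, el_apply, LinearMap.comp_apply]

theorem comp_el (ψ : Dual ℂ U) (x : U) (φ : Dual ℂ U) : ψ.comp (el x φ) = ψ x • φ := by
  ext u
  simp only [LinearMap.comp_apply, el_apply, map_smul, smul_eq_mul, LinearMap.smul_apply]
  rw [mul_comm]

theorem el_neg (x : U) (φ : Dual ℂ U) : el x (-φ) = -el x φ := by
  ext u
  simp only [el_apply, LinearMap.neg_apply, neg_smul]

theorem tr_el [FiniteDimensional ℂ U] (x : U) (φ : Dual ℂ U) :
    LinearMap.trace ℂ U (el x φ) = φ x := LinearMap.trace_smulRight φ x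

theorem coord_eq {ι : Type} [DecidableEq ι] (b : Basis ι ℂ U) (i j : ι) :
    b.coord j (b i) = if i = j then 1 else 0 := by
  rw [Basis.coord_apply, Basis.repr_self_apply]

/-- a linear map which vanishes on trace zero operators -/
theorem vanish [FiniteDimensional ℂ U] {ι X : Type} [Fintype ι] [DecidableEq ι] [AddCommGroup X]
    [Module ℂ X] (b : Basis ι ℂ U) (Ψ : End ℂ U →ₗ[ℂ] X)
    (h1 : ∀ i j, i ≠ j → Ψ (el (b i) (b.coord j)) = 0)
    (h2 : ∀ i j, i ≠ j → Ψ (el (b i) (b.coord i)) = Ψ (el (b j) (b.coord j)))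
    (A : End ℂ U) (hA : LinearMap.trace ℂ U A = 0) : Ψ A = 0 := by
  have hexp : A = ∑ j, ∑ i, b.repr (A (b j)) i • el (b i) (b.coord j) := by
    apply b.ext
    intro k
    rw [LinearMap.sum_apply, Finset.sum_eq_single k]
    · rw [LinearMap.sum_apply]
      simp only [LinearMap.smul_apply, el_apply, coord_eq, if_true, one_smul]
      exact (b.sum_repr _).symm
    · intro j _ hj
      rw [LinearMap.sum_apply]
      refine Finset.sum_eq_zero fun i _ => ?_
      rw [LinearMap.smul_apply, el_apply, coord_eq, if_neg (Ne.symm hj), zero_smul, smul_zero]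
    · intro h
      exact absurd (Finset.mem_univ k) h
  have htr : ∑ j, b.repr (A (b j)) j = 0 := by
    have h3 := congrArg (LinearMap.trace ℂ U) hexp
    rw [hA, map_sum] at h3
    rw [h3]
    refine Finset.sum_congr rfl fun j _ => ?_
    rw [map_sum, Finset.sum_eq_single j]
    · rw [map_smul, tr_el, coord_eq, if_pos rfl, smul_eq_mul, mul_one]
    · intro i _ hi
      rw [map_smul, tr_el, coord_eq, if_neg hi, smul_zero]
    · intro h
      exact absurd (Finset.mem_univ j) h
  have h4 : Ψ A = ∑ j, b.repr (A (b j)) j • Ψ (el (b j) (b.coord j)) := by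
    have h3 := congrArg Ψ hexp
    rw [map_sum] at h3
    rw [h3]
    refine Finset.sum_congr rfl fun j _ => ?_
    rw [map_sum, Finset.sum_eq_single j]
    · rw [map_smul]
    · intro i _ hi
      rw [map_smul, h1 i j hi, smul_zero]
    · intro h
      exact absurd (Finset.mem_univ j) h
  rw [h4]
  rcases isEmpty_or_nonempty ι with he | ⟨⟨c⟩⟩
  · exact Finset.sum_of_isEmpty _
  · have h5 : ∀ j, Ψ (el (b j) (b.coord j)) = Ψ (el (b c) (b.coord c)) := by
      intro j
      by_cases h : j = c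
      · rw [h]
      · exact h2 j c h
    simp only [h5]
    rw [← Finset.sum_smul, htr, zero_smul]

/-- The pairs of involutions. -/
def Pr (ρ : End ℂ U →ₗ[ℂ] End ℂ R) (D : End ℂ U) (D' : End ℂ R) : Prop :=
  D * D = 1 ∧ D' * D' = 1 ∧ D ≠ 1 ∧ D ≠ -1 ∧
    ∀ A, LinearMap.trace ℂ U A = 0 → D' * ρ A - ρ A * D' = ρ (D * A - A * D)

variable {ρ : End ℂ U →ₗ[ℂ] End ℂ R} {D : End ℂ U} {D' : End ℂ R}

theorem Pr.neg (h : Pr ρ D D') : Pr ρ (-D) (-D') := by
  obtain ⟨h1, h2, h3, h4, h5⟩ := h
  refine ⟨by rw [neg_mul_neg, h1], by rw [neg_mul_neg, h2], ?_, ?_, fun A hA => ?_⟩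
  · intro h
    apply h4
    rw [← h, neg_neg]
  · intro h
    exact h3 (neg_injective h)
  · have e1 : -D' * ρ A - ρ A * -D' = -(D' * ρ A - ρ A * D') := by
      rw [neg_mul, mul_neg]
      abel
    have e2 : -D * A - A * -D = -(D * A - A * D) := by
      rw [neg_mul, mul_neg]
      abel
    rw [e1, e2, h5 A hA, map_neg]

theorem dn {D' N : End ℂ R} (h1 : D' * D' = 1) (h2 : D' * N - N * D' = N + N) :
    D' * N = N ∧ N * D' = -N := by
  have e1 : N - D' * N * D' = D' * N + D' * N := by
    have := congrArg (fun X => D' * X) h2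
    simp only [mul_sub, mul_add, ← mul_assoc, h1, one_mul] at this
    exact this
  have e2 : D' * N * D' - N = N * D' + N * D' := by
    have := congrArg (fun X => X * D') h2
    simp only [sub_mul, add_mul, mul_assoc, h1, mul_one] at this
    rw [mul_assoc]
    exact this
  have e3 : D' * N + N * D' = 0 := by
    have h' : (2 : ℂ) • (D' * N + N * D') = 0 := by
      rw [two_smul]
      have h : (D' * N + D' * N) + (N * D' + N * D') = 0 := by
        rw [← e1, ← e2]
        abel
      rw [← h]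
      abel
    exact (smul_eq_zero.1 h').resolve_left two_ne_zero
  have e4 : N * D' = -(D' * N) := by
    rw [eq_neg_iff_add_eq_zero, add_comm]
    exact e3
  have e5 : D' * N = N := by
    rw [e4, sub_neg_eq_add, ← two_smul ℂ, ← two_smul ℂ N] at h2
    exact smul_right_injective _ (two_ne_zero (α := ℂ)) h2
  exact ⟨e5, by rw [e4, e5]⟩

theorem Pr.up [FiniteDimensional ℂ U] (h : Pr ρ D D') {x : U} {φ : Dual ℂ U} (hx : D x = x)
    (hφ : φ.comp D = -φ) :
    φ x = 0 ∧ D' * ρ (el x φ) = ρ (el x φ) ∧ ρ (el x φ) * D' = -ρ (el x φ) := by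
  have h0 : φ x = 0 := by
    have h1 := LinearMap.congr_fun hφ x
    rw [LinearMap.comp_apply, hx, LinearMap.neg_apply] at h1
    exact self_eq_neg.1 h1
  refine ⟨h0, dn h.2.1 ?_⟩
  rw [h.2.2.2.2 _ (by rw [tr_el, h0]), mul_el, el_mul', hx, hφ, el_neg, sub_neg_eq_add, map_add]

theorem exm (hDD : D * D = 1) (hne : D ≠ 1) :
    ∃ (y : U) (φ : Dual ℂ U), D y = -y ∧ φ y = 1 ∧ φ.comp D = -φ := by
  have hDD' : ∀ u, D (D u) = u := fun u => LinearMap.congr_fun hDD u
  obtain ⟨u, hu⟩ : ∃ u, D u ≠ u := by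
    by_contra h
    push Not at h
    exact hne (LinearMap.ext h)
  have hy0 : u - D u ≠ 0 := fun h => hu (sub_eq_zero.1 h).symm
  obtain ⟨φ0, hφ0⟩ : ∃ φ : Dual ℂ U, φ (u - D u) ≠ 0 := by
    by_contra h
    push Not at h
    exact hy0 ((Module.forall_dual_apply_eq_zero_iff ℂ _).1 h)
  have hDy : D (u - D u) = -(u - D u) := by
    rw [map_sub, hDD']
    abel
  refine ⟨u - D u, (2 * φ0 (u - D u))⁻¹ • (φ0 - φ0.comp D), hDy, ?_, ?_⟩
  · rw [LinearMap.smul_apply, LinearMap.sub_apply, LinearMap.comp_apply, hDy, map_neg,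
      sub_neg_eq_add, smul_eq_mul, ← two_mul]
    exact inv_mul_cancel₀ (mul_ne_zero two_ne_zero hφ0)
  · ext v
    simp only [LinearMap.comp_apply, LinearMap.smul_apply, LinearMap.sub_apply, hDD',
      LinearMap.neg_apply, smul_eq_mul]
    ring

theorem exm' (hDD : D * D = 1) (hne : D ≠ -1) :
    ∃ (y : U) (φ : Dual ℂ U), D y = y ∧ φ y = 1 ∧ φ.comp D = φ := by
  obtain ⟨y, φ, h1, h2, h3⟩ := exm (D := -D) (by rw [neg_mul_neg, hDD]) (by
    intro h
    apply hne
    rw [← h, neg_neg])
  refine ⟨y, φ, ?_, h2, ?_⟩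
  · rw [LinearMap.neg_apply] at h1
    exact neg_injective h1
  · rw [LinearMap.comp_neg] at h3
    exact neg_injective h3

/-- equivariance on one eigenspace -/
theorem eqv [FiniteDimensional ℂ U] (f : U →ₗ[ℂ] R)
    (hf : ∀ A, LinearMap.trace ℂ U A = 0 → ∀ u, ρ A (f u) = f (A u)) (h : Pr ρ D D') {x : U}
    (hx : D x = x) : D' (f x) = f x := by
  obtain ⟨y, φ, h1, h2, h3⟩ := exm h.1 h.2.2.1
  obtain ⟨h4, h5, -⟩ := h.up hx h3
  have h6 : f x = ρ (el x φ) (f y) := by
    rw [hf _ (by rw [tr_el, h4]), el_apply, h2, one_smul]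
  rw [h6, ← Module.End.mul_apply, h5]

theorem eqv' [FiniteDimensional ℂ U] (f : U →ₗ[ℂ] R)
    (hf : ∀ A, LinearMap.trace ℂ U A = 0 → ∀ u, ρ A (f u) = f (A u)) (h : Pr ρ D D') (u : U) :
    f (D u) = D' (f u) := by
  have hDD' : ∀ u, D (D u) = u := fun u => LinearMap.congr_fun h.1 u
  have h1 := eqv f hf h (x := u + D u) (by rw [map_add, hDD', add_comm])
  have h2 := eqv f hf h.neg (x := u - D u) (by
    rw [LinearMap.neg_apply, map_sub, hDD']
    abel)
  rw [LinearMap.neg_apply, map_sub, map_sub] at h2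
  rw [map_add, map_add] at h1
  have h3 : (2 : ℂ) • (f (D u) - D' (f u)) = 0 := by
    rw [two_smul]
    have e1 : D' (f u) + D' (f (D u)) - (f u + f (D u)) = 0 := sub_eq_zero.2 h1
    have e2 : -(D' (f u) - D' (f (D u))) - (f u - f (D u)) = 0 := sub_eq_zero.2 h2
    have e3 : f (D u) - D' (f u) + (f (D u) - D' (f u)) =
        -(D' (f u) + D' (f (D u)) - (f u + f (D u))) +
          (-(D' (f u) - D' (f (D u))) - (f u - f (D u))) := by abel
    rw [e3, e1, e2, neg_zero, add_zero]
  exact sub_eq_zero.1 ((smul_eq_zero.1 h3).resolve_left two_ne_zero)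

/-- the dual case, one eigenspace -/
theorem eqd [FiniteDimensional ℂ U] (g : Dual ℂ U →ₗ[ℂ] R)
    (hg : ∀ A, LinearMap.trace ℂ U A = 0 → ∀ φ : Dual ℂ U, ρ A (g φ) = -g (φ.comp A))
    (h : Pr ρ D D') {φ : Dual ℂ U} (hφ : φ.comp D = -φ) : D' (g φ) = g φ := by
  obtain ⟨x, ψ, h1, h2, h3⟩ := exm' h.1 h.2.2.2.1
  obtain ⟨h4, h5, -⟩ := h.up h1 hφ
  have h6 : g φ = -ρ (el x φ) (g ψ) := by
    rw [hg _ (by rw [tr_el, h4]), comp_el, h2, one_smul, neg_neg]
  rw [h6, map_neg, ← Module.End.mul_apply, h5]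

theorem eqd' [FiniteDimensional ℂ U] (g : Dual ℂ U →ₗ[ℂ] R)
    (hg : ∀ A, LinearMap.trace ℂ U A = 0 → ∀ φ : Dual ℂ U, ρ A (g φ) = -g (φ.comp A))
    (h : Pr ρ D D') (φ : Dual ℂ U) : g (φ.comp D) = -D' (g φ) := by
  have hDD' : (φ.comp D).comp D = φ := by
    ext u
    have : D (D u) = u := LinearMap.congr_fun h.1 u
    rw [LinearMap.comp_apply, LinearMap.comp_apply, this]
  have h1 := eqd g hg h (φ := φ - φ.comp D) (by
    rw [LinearMap.sub_comp, hDD']
    abel)
  have h2 := eqd g hg h.neg (φ := φ + φ.comp D) (by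
    rw [LinearMap.comp_neg, LinearMap.add_comp, hDD', add_comm])
  rw [LinearMap.neg_apply, map_add, map_add] at h2
  rw [map_sub, map_sub] at h1
  have h3 : (2 : ℂ) • (g (φ.comp D) - -D' (g φ)) = 0 := by
    rw [two_smul]
    have e1 : D' (g φ) - D' (g (φ.comp D)) - (g φ - g (φ.comp D)) = 0 := sub_eq_zero.2 h1
    have e2 : -(D' (g φ) + D' (g (φ.comp D))) - (g φ + g (φ.comp D)) = 0 := sub_eq_zero.2 h2
    have e3 : g (φ.comp D) - -D' (g φ) + (g (φ.comp D) - -D' (g φ)) =
        (D' (g φ) - D' (g (φ.comp D)) - (g φ - g (φ.comp D))) -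
          (-(D' (g φ) + D' (g (φ.comp D))) - (g φ + g (φ.comp D))) := by abel
    rw [e3, e1, e2, sub_zero]
  exact sub_eq_zero.1 ((smul_eq_zero.1 h3).resolve_left two_ne_zero)

/-- a basis of eigenvectors -/
theorem exB [FiniteDimensional ℂ U] (hDD : D * D = 1) :
    ∃ b : Basis (Fin (finrank ℂ (LinearMap.ker (D - 1))) ⊕
        Fin (finrank ℂ (LinearMap.ker (D + 1)))) ℂ U,
      (∀ i, D (b (Sum.inl i)) = b (Sum.inl i)) ∧ ∀ j, D (b (Sum.inr j)) = -b (Sum.inr j) := by
  have hDD' : ∀ u, D (D u) = u := fun u => LinearMap.congr_fun hDD u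
  have hP : ∀ u, u ∈ LinearMap.ker (D - 1) ↔ D u = u := by
    intro u
    rw [LinearMap.mem_ker, LinearMap.sub_apply, Module.End.one_apply, sub_eq_zero]
  have hM : ∀ u, u ∈ LinearMap.ker (D + 1) ↔ D u = -u := by
    intro u
    rw [LinearMap.mem_ker, LinearMap.add_apply, Module.End.one_apply, eq_neg_iff_add_eq_zero]
  have hc : IsCompl (LinearMap.ker (D - 1)) (LinearMap.ker (D + 1)) := by
    constructor
    · rw [Submodule.disjoint_def]
      intro u h1 h2
      rw [hP] at h1
      rw [hM, h1] at h2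
      have h3 : (2 : ℂ) • u = 0 := by
        rw [two_smul]
        nth_rewrite 1 [h2]
        exact neg_add_cancel u
      exact (smul_eq_zero.1 h3).resolve_left two_ne_zero
    · rw [codisjoint_iff, eq_top_iff]
      intro u _
      rw [Submodule.mem_sup]
      refine ⟨(2 : ℂ)⁻¹ • (u + D u), ?_, (2 : ℂ)⁻¹ • (u - D u), ?_, ?_⟩
      · rw [hP, map_smul, map_add, hDD', add_comm]
      · rw [hM, map_smul, map_sub, hDD', ← smul_neg, neg_sub]
      · rw [← smul_add]
        have : u + D u + (u - D u) = (2 : ℂ) • u := by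
          rw [two_smul]
          abel
        rw [this, smul_smul, inv_mul_cancel₀ two_ne_zero, one_smul]
  refine ⟨((finBasis ℂ (LinearMap.ker (D - 1))).prod (finBasis ℂ (LinearMap.ker (D + 1)))).map
    (Submodule.prodEquivOfIsCompl _ _ hc), fun i => ?_, fun j => ?_⟩
  · rw [Basis.map_apply, Submodule.coe_prodEquivOfIsCompl', Basis.prod_apply_inl_fst,
      Basis.prod_apply_inl_snd, Submodule.coe_zero, add_zero]
    exact (hP _).1 (Submodule.coe_mem _)
  · rw [Basis.map_apply, Submodule.coe_prodEquivOfIsCompl', Basis.prod_apply_inr_fst,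
      Basis.prod_apply_inr_snd, Submodule.coe_zero, zero_add]
    exact (hM _).1 (Submodule.coe_mem _)

theorem exB' [FiniteDimensional ℂ U] (hDD : D * D = 1) :
    ∃ p q : ℕ, p = finrank ℂ (LinearMap.ker (D - 1)) ∧ q = finrank ℂ (LinearMap.ker (D + 1)) ∧
      ∃ b : Basis (Fin p ⊕ Fin q) ℂ U,
      (∀ i, D (b (Sum.inl i)) = b (Sum.inl i)) ∧ ∀ j, D (b (Sum.inr j)) = -b (Sum.inr j) :=
  ⟨_, _, rfl, rfl, exB hDD⟩

section basis

variable [FiniteDimensional ℂ U] {ι : Type} [Fintype ι] [DecidableEq ι] (b : Basis ι ℂ U)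
  (hbr : ∀ A B, LinearMap.trace ℂ U A = 0 → LinearMap.trace ℂ U B = 0 →
    ρ (A * B - B * A) = ρ A * ρ B - ρ B * ρ A)

include hbr in
theorem dat : Dat (fun i j => ρ (el (b i) (b.coord j))) := by
  have ht : ∀ i j, i ≠ j → LinearMap.trace ℂ U (el (b i) (b.coord j)) = 0 := by
    intro i j hij
    rw [tr_el, coord_eq, if_neg hij]
  refine ⟨fun i j k l hij hkl => ?_, fun i j hij => ?_⟩
  · rw [← hbr _ _ (ht i j hij) (ht k l hkl), el_mul, el_mul, coord_eq, coord_eq, map_sub, map_smul,
      map_smul, ite_smul, ite_smul, one_smul, one_smul, zero_smul, zero_smul]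
    simp only [eq_comm (a := k) (b := j), eq_comm (a := i) (b := l)]
  · rw [← map_sub, ← hbr _ _ (by rw [map_sub, tr_el, tr_el, coord_eq, coord_eq, if_pos rfl,
      if_pos rfl, sub_self]) (ht i j hij), ← map_add]
    congr 1
    rw [sub_mul, mul_sub, el_mul, el_mul, el_mul, el_mul, coord_eq, coord_eq, coord_eq,
      if_pos rfl, if_neg hij, if_pos rfl]
    simp only [one_smul, zero_smul]
    abel

include hbr in
/-- from the basis to the space -/
theorem toU {F : ι → R} (hF : ∀ i j, i ≠ j → ∀ k, ρ (el (b i) (b.coord j)) (F k) =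
      if j = k then F i else 0) (A : End ℂ U) (hA : LinearMap.trace ℂ U A = 0) (u : U) :
    ρ A (b.constr ℂ F u) = b.constr ℂ F (A u) := by
  have hN := dat b hbr
  have h1 : ∀ i j, i ≠ j → ∀ u, ρ (el (b i) (b.coord j)) (b.constr ℂ F u) =
      b.constr ℂ F (el (b i) (b.coord j) u) := by
    intro i j hij u
    have : (ρ (el (b i) (b.coord j))).comp (b.constr ℂ F) =
        (b.constr ℂ F).comp (el (b i) (b.coord j)) := by
      apply b.ext
      intro k
      rw [LinearMap.comp_apply, LinearMap.comp_apply, Basis.constr_basis, hF i j hij, el_apply,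
        coord_eq, map_smul, Basis.constr_basis, ite_smul, one_smul, zero_smul]
      simp only [eq_comm]
    exact LinearMap.congr_fun this u
  let Ψ : End ℂ U →ₗ[ℂ] R :=
    { toFun := fun A => ρ A (b.constr ℂ F u) - b.constr ℂ F (A u)
      map_add' := fun A B => by
        rw [map_add, LinearMap.add_apply, LinearMap.add_apply, map_add]
        abel
      map_smul' := fun r A => by
        rw [map_smul, LinearMap.smul_apply, LinearMap.smul_apply, map_smul, smul_sub]
        rfl }
  have h2 : Ψ A = 0 := by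
    refine vanish b Ψ (fun i j hij => ?_) (fun i j hij => ?_) A hA
    · change ρ (el (b i) (b.coord j)) (b.constr ℂ F u) -
        b.constr ℂ F (el (b i) (b.coord j) u) = 0
      rw [h1 i j hij, sub_self]
    · change ρ (el (b i) (b.coord i)) (b.constr ℂ F u) -
        b.constr ℂ F (el (b i) (b.coord i) u) = ρ (el (b j) (b.coord j)) (b.constr ℂ F u) -
        b.constr ℂ F (el (b j) (b.coord j) u)
      have h3 := hN.brh hij
      have h4 := LinearMap.congr_fun h3 (b.constr ℂ F u)
      rw [LinearMap.sub_apply, LinearMap.sub_apply, Module.End.mul_apply, Module.End.mul_apply,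
        h1 j i (Ne.symm hij), h1 i j hij, h1 i j hij, h1 j i (Ne.symm hij),
        ← Module.End.mul_apply, ← Module.End.mul_apply, el_mul, el_mul, coord_eq, coord_eq,
        if_pos rfl, if_pos rfl, one_smul, one_smul] at h4
      rw [sub_eq_sub_iff_sub_eq_sub, ← h4]
  exact sub_eq_zero.1 h2

include hbr in
/-- from the dual basis to the dual space -/
theorem toD {G : ι → R} (hG : ∀ i j, i ≠ j → ∀ k, (-ρ (el (b j) (b.coord i))) (G k) =
      if j = k then G i else 0) (A : End ℂ U) (hA : LinearMap.trace ℂ U A = 0) (φ : Dual ℂ U) :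
    ρ A (b.dualBasis.constr ℂ G φ) = -b.dualBasis.constr ℂ G (φ.comp A) := by
  have hN := dat b hbr
  have h1 : ∀ i j, i ≠ j → ∀ φ : Dual ℂ U, ρ (el (b i) (b.coord j)) (b.dualBasis.constr ℂ G φ) =
      -b.dualBasis.constr ℂ G (φ.comp (el (b i) (b.coord j))) := by
    intro i j hij φ
    have : (ρ (el (b i) (b.coord j))).comp (b.dualBasis.constr ℂ G) =
        -((b.dualBasis.constr ℂ G).comp (LinearMap.lcomp ℂ ℂ (el (b i) (b.coord j)))) := by
      apply b.dualBasis.ext
      intro k
      rw [LinearMap.comp_apply, LinearMap.neg_apply, LinearMap.comp_apply, Basis.constr_basis]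
      have h2 : LinearMap.lcomp ℂ ℂ (el (b i) (b.coord j)) (b.dualBasis k) =
          (if i = k then (1 : ℂ) else 0) • b.dualBasis j := by
        rw [LinearMap.lcomp_apply', Basis.coe_dualBasis, comp_el, coord_eq]
      rw [h2, map_smul, Basis.constr_basis]
      have h3 := hG j i (Ne.symm hij) k
      rw [LinearMap.neg_apply, neg_eq_iff_eq_neg] at h3
      rw [h3, ite_smul, one_smul, zero_smul]
    exact LinearMap.congr_fun this φ
  let Ψ : End ℂ U →ₗ[ℂ] R :=
    { toFun := fun A => ρ A (b.dualBasis.constr ℂ G φ) + b.dualBasis.constr ℂ G (φ.comp A)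
      map_add' := fun A B => by
        rw [map_add, LinearMap.add_apply, LinearMap.comp_add, map_add]
        abel
      map_smul' := fun r A => by
        rw [map_smul, LinearMap.smul_apply, LinearMap.comp_smul, map_smul, smul_add]
        rfl }
  have h2 : Ψ A = 0 := by
    refine vanish b Ψ (fun i j hij => ?_) (fun i j hij => ?_) A hA
    · change ρ (el (b i) (b.coord j)) (b.dualBasis.constr ℂ G φ) +
        b.dualBasis.constr ℂ G (φ.comp (el (b i) (b.coord j))) = 0
      rw [h1 i j hij, neg_add_cancel]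
    · change ρ (el (b i) (b.coord i)) (b.dualBasis.constr ℂ G φ) +
        b.dualBasis.constr ℂ G (φ.comp (el (b i) (b.coord i))) =
        ρ (el (b j) (b.coord j)) (b.dualBasis.constr ℂ G φ) +
        b.dualBasis.constr ℂ G (φ.comp (el (b j) (b.coord j)))
      have h3 := hN.brh hij
      have h4 := LinearMap.congr_fun h3 (b.dualBasis.constr ℂ G φ)
      have h5 : ∀ k l, (φ.comp (el (b k) (b.coord l))).comp (el (b l) (b.coord k)) =
          φ.comp (el (b k) (b.coord k)) := by
        intro k l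
        rw [LinearMap.comp_assoc]
        congr 1
        change el (b k) (b.coord l) * el (b l) (b.coord k) = _
        rw [el_mul, coord_eq, if_pos rfl, one_smul]
      rw [LinearMap.sub_apply, LinearMap.sub_apply, Module.End.mul_apply, Module.End.mul_apply,
        h1 j i (Ne.symm hij), h1 i j hij, map_neg, map_neg, h1 i j hij, h1 j i (Ne.symm hij),
        neg_neg, neg_neg, h5, h5] at h4
      rw [← sub_eq_zero] at h4 ⊢
      rw [← neg_eq_zero, ← h4]
      abel
  exact eq_neg_of_add_eq_zero_left h2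

end basis

theorem exL {α β : Type} {x : α ⊕ β} (h : Sum.isLeft x = true) : ∃ y, x = Sum.inl y := by
  cases x with
  | inl y => exact ⟨y, rfl⟩
  | inr y => exact Bool.noConfusion h

theorem exR {α β : Type} {x : α ⊕ β} (h : Sum.isLeft x = false) : ∃ y, x = Sum.inr y := by
  cases x with
  | inl y => exact Bool.noConfusion h
  | inr y => exact ⟨y, rfl⟩

theorem step [FiniteDimensional ℂ U] [FiniteDimensional ℂ R] {T : Set (End ℂ U × End ℂ R)}
    (hbr : ∀ A B, LinearMap.trace ℂ U A = 0 → LinearMap.trace ℂ U B = 0 →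
      ρ (A * B - B * A) = ρ A * ρ B - ρ B * ρ A)
    (hT : ∀ p ∈ T, Pr ρ p.1 p.2)
    (hf : ∀ f : U →ₗ[ℂ] R, (∀ p ∈ T, ∀ u, f (p.1 u) = p.2 (f u)) → f = 0)
    (hg : ∀ f : Dual ℂ U →ₗ[ℂ] R, (∀ p ∈ T, ∀ φ : Dual ℂ U, f (φ.comp p.1) = -p.2 (f φ)) → f = 0)
    (h : Pr ρ D D') (hp2 : 2 ≤ finrank ℂ (LinearMap.ker (D - 1)))
    (hq1 : 1 ≤ finrank ℂ (LinearMap.ker (D + 1)))
    (hq : 2 ≤ finrank ℂ (LinearMap.ker (D + 1)) ∨ finrank ℂ (LinearMap.ker (D - 1)) = 2)
    (A : End ℂ U) (hA : LinearMap.trace ℂ U A = 0) : ρ A = 0 := by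
  obtain ⟨p, q, hpdef, hqdef, b, hb1, hb2⟩ := exB' (D := D) h.1
  rw [← hpdef] at hp2 hq
  rw [← hqdef] at hq1 hq
  have hN : Dat (fun i j => ρ (el (b i) (b.coord j))) := dat b hbr
  set N : (Fin p ⊕ Fin q) → (Fin p ⊕ Fin q) → End ℂ R :=
    fun i j => ρ (el (b i) (b.coord j)) with hNdef
  -- the coordinates
  have hc1 : ∀ i, (b.coord (Sum.inl i)).comp D = b.coord (Sum.inl i) := by
    intro i
    apply b.ext
    rintro (k | k)
    · rw [LinearMap.comp_apply, hb1]
    · rw [LinearMap.comp_apply, hb2, map_neg, coord_eq, if_neg Sum.inr_ne_inl, neg_zero]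
  have hc2 : ∀ j, (b.coord (Sum.inr j)).comp D = -b.coord (Sum.inr j) := by
    intro j
    apply b.ext
    rintro (k | k)
    · rw [LinearMap.comp_apply, hb1, LinearMap.neg_apply, coord_eq, if_neg Sum.inl_ne_inr,
        neg_zero]
    · rw [LinearMap.comp_apply, hb2, map_neg, LinearMap.neg_apply]
  have hp : ∀ i j k l, Sum.isLeft i = true → Sum.isLeft j = false → Sum.isLeft k = true →
      Sum.isLeft l = false → N i j * N k l = 0 := by
    intro i j k l hi hj hk hl
    obtain ⟨i, rfl⟩ := exL hi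
    obtain ⟨j, rfl⟩ := exR hj
    obtain ⟨k, rfl⟩ := exL hk
    obtain ⟨l, rfl⟩ := exR hl
    have h1 := (h.up (hb1 i) (hc2 j)).2.2
    have h2 := (h.up (hb1 k) (hc2 l)).2.1
    apply self_neg
    change ρ (el (b (Sum.inl i)) (b.coord (Sum.inr j))) *
      ρ (el (b (Sum.inl k)) (b.coord (Sum.inr l))) = -(ρ (el (b (Sum.inl i))
      (b.coord (Sum.inr j))) * ρ (el (b (Sum.inl k)) (b.coord (Sum.inr l))))
    nth_rewrite 1 [← h2]
    rw [← mul_assoc, h1, neg_mul]
  have hn := h.neg
  have hm : ∀ i j k l, Sum.isLeft i = false → Sum.isLeft j = true → Sum.isLeft k = false →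
      Sum.isLeft l = true → N i j * N k l = 0 := by
    intro i j k l hi hj hk hl
    obtain ⟨i, rfl⟩ := exR hi
    obtain ⟨j, rfl⟩ := exL hj
    obtain ⟨k, rfl⟩ := exR hk
    obtain ⟨l, rfl⟩ := exL hl
    have h3 : ∀ i, (-D) (b (Sum.inr i)) = b (Sum.inr i) := fun i => by
      rw [LinearMap.neg_apply, hb2, neg_neg]
    have h4 : ∀ j, (b.coord (Sum.inl j)).comp (-D) = -b.coord (Sum.inl j) := fun j => by
      rw [LinearMap.comp_neg, hc1]
    have h1 := (hn.up (h3 i) (h4 j)).2.2
    have h2 := (hn.up (h3 k) (h4 l)).2.1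
    apply self_neg
    change ρ (el (b (Sum.inr i)) (b.coord (Sum.inl j))) *
      ρ (el (b (Sum.inr k)) (b.coord (Sum.inl l))) = -(ρ (el (b (Sum.inr i))
      (b.coord (Sum.inl j))) * ρ (el (b (Sum.inr k)) (b.coord (Sum.inl l))))
    nth_rewrite 1 [← h2]
    rw [← mul_assoc, h1, neg_mul]
  -- the indices
  let a1 : Fin p ⊕ Fin q := Sum.inl ⟨0, by omega⟩
  let a2 : Fin p ⊕ Fin q := Sum.inl ⟨1, by omega⟩
  let c1 : Fin p ⊕ Fin q := Sum.inr ⟨0, by omega⟩
  have h12 : a1 ≠ a2 := by
    intro h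
    have := congrArg Fin.val (Sum.inl_injective h)
    simp at this
  have hac : a1 ≠ c1 := Sum.inl_ne_inr
  have hbc : a2 ≠ c1 := Sum.inl_ne_inr
  have hq' : (∃ c', c' ≠ c1 ∧ Sum.isLeft c' = false) ∨
      (∀ j : Fin p ⊕ Fin q, Sum.isLeft j = true → j = a1 ∨ j = a2) := by
    rcases hq with hq | hq
    · left
      refine ⟨Sum.inr ⟨1, by omega⟩, ?_, rfl⟩
      intro h
      have := congrArg Fin.val (Sum.inr_injective h)
      simp at this
    · right
      rintro (⟨j, hj⟩ | j) hj'
      · have : j = 0 ∨ j = 1 := by omega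
        rcases this with rfl | rfl
        · left
          rfl
        · right
          rfl
      · exact Bool.noConfusion hj'
  -- the first product
  have P1 : N a1 c1 * N c1 a2 = 0 := by
    ext v
    obtain ⟨F, hF1, hF2⟩ := core hN Sum.isLeft hp hm (a := a1) (b := a2) (c := c1) rfl rfl h12 rfl
      hq' v
    have h5 := toU b hbr hF2
    have h6 : b.constr ℂ F = 0 := hf _ fun p hp u => eqv' _ h5 (hT p hp) u
    have h7 : F a1 = 0 := by
      rw [← b.constr_basis ℂ F a1, h6, LinearMap.zero_apply]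
    rw [Module.End.mul_apply, ← hF1, h7, LinearMap.zero_apply]
  have P2 : N c1 a2 * N a1 c1 = 0 := by
    ext v
    have hp' : ∀ i j k l, Sum.isLeft i = true → Sum.isLeft j = false → Sum.isLeft k = true →
        Sum.isLeft l = false → (-N j i) * (-N l k) = 0 := by
      intro i j k l hi hj hk hl
      rw [neg_mul_neg, hm j i l k hj hi hl hk]
    have hm' : ∀ i j k l, Sum.isLeft i = false → Sum.isLeft j = true → Sum.isLeft k = false →
        Sum.isLeft l = true → (-N j i) * (-N l k) = 0 := by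
      intro i j k l hi hj hk hl
      rw [neg_mul_neg, hp j i l k hj hi hl hk]
    have hq'' : (∃ c', c' ≠ c1 ∧ Sum.isLeft c' = false) ∨
        (∀ j : Fin p ⊕ Fin q, Sum.isLeft j = true → j = a2 ∨ j = a1) :=
      hq'.imp id fun h j hj => (h j hj).symm
    obtain ⟨G, hG1, hG2⟩ := core hN.tr Sum.isLeft hp' hm' (a := a2) (b := a1) (c := c1) rfl rfl
      (Ne.symm h12) rfl hq'' v
    have h5 := toD b hbr hG2
    have h6 : b.dualBasis.constr ℂ G = 0 := hg _ fun p hp φ => eqd' _ h5 (hT p hp) φ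
    have h7 : G a2 = 0 := by
      rw [← b.dualBasis.constr_basis ℂ G a2, h6, LinearMap.zero_apply]
    rw [h7] at hG1
    rw [Module.End.mul_apply, LinearMap.zero_apply]
    have h8 : N c1 a2 (N a1 c1 v) = (-N c1 a2) ((-N a1 c1) v) := by
      rw [LinearMap.neg_apply, LinearMap.neg_apply, map_neg, neg_neg]
    rw [h8]
    exact hG1.symm
  have P3 : N a1 a2 = 0 := by
    rw [← hN.br1 hac (Ne.symm hbc) h12, P1, P2, sub_zero]
  have hall := allZero hN h12 hac hbc P3
  refine vanish b ρ (fun i j hij => hall i j hij) (fun i j hij => ?_) A hA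
  have h9 := hN.brh hij
  rw [hall i j hij, hall j i (Ne.symm hij), mul_zero, sub_zero] at h9
  exact (sub_eq_zero.1 h9.symm)

end el

/-- **GS/Csl.** -/
theorem Csl : S_Csl := by
  intro U R _ _ _ _ _ _ ρ T hn hbr hTn hT hdim hf hg A hA
  have hT' : ∀ p ∈ T, Pr ρ p.1 p.2 := fun p hp => hT p hp
  -- the dimensions
  have hd : ∀ p ∈ T, finrank ℂ (LinearMap.ker (p.1 - 1)) + finrank ℂ (LinearMap.ker (p.1 + 1)) =
      finrank ℂ U ∧ 1 ≤ finrank ℂ (LinearMap.ker (p.1 - 1)) ∧
      1 ≤ finrank ℂ (LinearMap.ker (p.1 + 1)) := by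
    intro p hp
    obtain ⟨h1, h2, h3, h4, h5⟩ := hT p hp
    obtain ⟨b, -, -⟩ := exB (D := p.1) h1
    refine ⟨?_, ?_, ?_⟩
    · rw [Module.finrank_eq_card_basis b, Fintype.card_sum, Fintype.card_fin, Fintype.card_fin]
    · obtain ⟨y, φ, h6, h7, -⟩ := exm' h1 h4
      rw [Nat.one_le_iff_ne_zero, ← Nat.pos_iff_ne_zero, Module.finrank_pos_iff_exists_ne_zero]
      refine ⟨⟨y, ?_⟩, ?_⟩
      · rw [LinearMap.mem_ker, LinearMap.sub_apply, Module.End.one_apply, h6, sub_self]
      · intro h
        have h8 : y = 0 := congrArg Subtype.val h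
        rw [h8, map_zero] at h7
        exact zero_ne_one h7
    · obtain ⟨y, φ, h6, h7, -⟩ := exm h1 h3
      rw [Nat.one_le_iff_ne_zero, ← Nat.pos_iff_ne_zero, Module.finrank_pos_iff_exists_ne_zero]
      refine ⟨⟨y, ?_⟩, ?_⟩
      · rw [LinearMap.mem_ker, LinearMap.add_apply, Module.End.one_apply, h6, neg_add_cancel]
      · intro h
        have h8 : y = 0 := congrArg Subtype.val h
        rw [h8, map_zero] at h7
        exact zero_ne_one h7
  have hk : ∀ D : End ℂ U, LinearMap.ker (-D - 1) = LinearMap.ker (D + 1) := by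
    intro D
    rw [← LinearMap.ker_neg (D + 1)]
    congr 1
    abel
  have hk' : ∀ D : End ℂ U, LinearMap.ker (-D + 1) = LinearMap.ker (D - 1) := by
    intro D
    rw [← LinearMap.ker_neg (D - 1)]
    congr 1
    abel
  rcases hdim with h3 | ⟨p, hp, h2, h2'⟩
  · obtain ⟨p, hp⟩ := hTn
    obtain ⟨e1, e2, e3⟩ := hd p hp
    by_cases h4 : 2 ≤ finrank ℂ (LinearMap.ker (p.1 - 1))
    · exact step hbr hT' hf hg (hT' p hp) h4 e3 (Or.inr (by omega)) A hA
    · refine step hbr hT' hf hg (hT' p hp).neg ?_ ?_ (Or.inr ?_) A hA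
      · rw [hk]
        omega
      · rw [hk']
        omega
      · rw [hk]
        omega
  · exact step hbr hT' hf hg (hT' p hp) h2 (by omega) (Or.inl h2') A hA

end Pool.Agent.N297.GSCsl
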