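import Pool.Agent.N906.KG.Nt
import Pool.Agent.N521.NT_LO
import Pool.Agent.W223.AK.Basic
import Pool.Agent.H691R3.PowColor

/-!
# Project KG, part LONK: the lower bound over a number field (helper297)
-/

set_option autoImplicit false
set_option linter.unusedSectionVars false

namespace Pool.Agent.N297.KG

open NumberField IsDedekindDomain Finset Filter Topology Pool.Agent.H691R3 Pool.Agent.W223.AK
open Pool.Agent.N906.NT (Cx cst Dl)
open Pool.Agent.N906.KG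
open Pool.Agent.N521.NT (cx_Dl cst_pos tend_W W_mono)

variable {K : Type} [Field K] [NumberField K] {n : ℕ}

/-! ### tuples of ideals -/

theorem mem_sp {D : Fin n → Idl K} {v : Pr K} : v ∈ sp D ↔ ∃ i, D i v ≠ 0 := by
  unfold sp
  simp [Finsupp.mem_support_iff]

theorem not_mem_sp {D : Fin n → Idl K} {v : Pr K} : v ∉ sp D ↔ ∀ i, D i v = 0 := by
  rw [mem_sp]; push Not; rfl

theorem sum_pos_of_mem {D : Fin n → Idl K} {v : Pr K} (h : v ∈ sp D) : 1 ≤ ∑ i, D i v := by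
  obtain ⟨i, hi⟩ := mem_sp.1 h
  exact (Nat.one_le_iff_ne_zero.2 hi).trans (single_le_sum (f := fun i => D i v)
    (fun _ _ => Nat.zero_le _) (mem_univ i))

theorem sum_zero_of_not {D : Fin n → Idl K} {v : Pr K} (h : v ∉ sp D) : ∑ i, D i v = 0 :=
  sum_eq_zero fun i _ => not_mem_sp.1 h i

theorem tl_eq {D : Fin n → Idl K} {s : Finset (Pr K)} (h : sp D ⊆ s) :
    tl D = ∑ v ∈ s, ((∑ i, D i v : ℕ) : ℝ) * Real.log (Nv v) := by
  unfold tl
  have h1 : ∀ i, len (D i) = ∑ v ∈ s, (D i v : ℝ) * Real.log (Nv v) := fun i =>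
    len_eq_sum fun v hv => h (mem_sp.2 ⟨i, Finsupp.mem_support_iff.1 hv⟩)
  simp_rw [h1]
  rw [sum_comm]
  refine sum_congr rfl fun v _ => ?_
  push_cast
  rw [sum_mul]

theorem gl_eq {D : Fin n → Idl K} {s : Finset (Pr K)} (h : sp D ⊆ s) :
    gl D = ∑ v ∈ s, ((∑ i, D i v - 1 : ℕ) : ℝ) * Real.log (Nv v) := by
  have h1 : gl D = ∑ v ∈ sp D, ((∑ i, D i v - 1 : ℕ) : ℝ) * Real.log (Nv v) := by
    unfold gl tr
    rw [tl_eq (subset_refl (sp D)), ← sum_sub_distrib]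
    refine sum_congr rfl fun v hv => ?_
    rw [Nat.cast_sub (sum_pos_of_mem hv)]
    push_cast
    ring
  rw [h1]
  refine sum_subset h fun v _ hv => ?_
  rw [sum_zero_of_not hv]
  simp

theorem gl_mono {D P : Fin n → Idl K} (h : ∀ i, D i ≤ P i) : gl D ≤ gl P := by
  classical
  rw [gl_eq (subset_union_left (s₁ := sp D) (s₂ := sp P)),
    gl_eq (subset_union_right (s₁ := sp D) (s₂ := sp P))]
  refine sum_le_sum fun v _ => ?_
  refine mul_le_mul_of_nonneg_right ?_ (log_Nv_pos v).le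
  have h1 : ∑ i, D i v ≤ ∑ i, P i v := sum_le_sum fun i _ => h i v
  exact_mod_cast Nat.sub_le_sub_right h1 1

/-- the tuple with a power of `q` -/
noncomputable def Dq (D : Fin n → Idl K) (i₀ : Fin n) (q : Pr K) (j : ℕ) : Fin n → Idl K :=
  fun i => D i + if i = i₀ then Finsupp.single q (j + 1) else 0

section Dq

variable {D : Fin n → Idl K} {i₀ : Fin n} {q : Pr K} {j : ℕ}

theorem Dq_ne (i : Fin n) {v : Pr K} (hv : v ≠ q) : Dq D i₀ q j i v = D i v := by
  unfold Dq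
  rw [Finsupp.add_apply]
  split_ifs
  · rw [Finsupp.single_eq_of_ne hv, add_zero]
  · rfl

theorem Dq_q (hq : q ∉ sp D) (i : Fin n) : Dq D i₀ q j i q = if i = i₀ then j + 1 else 0 := by
  unfold Dq
  rw [Finsupp.add_apply, not_mem_sp.1 hq i, zero_add]
  split_ifs
  · rw [Finsupp.single_eq_same]
  · rfl

theorem sum_Dq_q (hq : q ∉ sp D) : ∑ i, Dq D i₀ q j i q = j + 1 := by
  simp_rw [Dq_q hq]
  simp

theorem sp_Dq [DecidableEq (Pr K)] (hq : q ∉ sp D) : sp (Dq D i₀ q j) = insert q (sp D) := by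
  ext v
  rw [mem_insert, mem_sp]
  by_cases hv : v = q
  · subst hv
    refine ⟨fun _ => Or.inl rfl, fun _ => ⟨i₀, ?_⟩⟩
    rw [Dq_q hq, if_pos rfl]
    omega
  · simp_rw [Dq_ne _ hv]
    rw [← mem_sp]
    simp [hv]

theorem gl_Dq (hq : q ∉ sp D) : gl (Dq D i₀ q j) = gl D + j * Real.log (Nv q) := by
  classical
  rw [gl_eq (subset_refl (sp (Dq D i₀ q j))), gl_eq (subset_refl (sp D)), sp_Dq hq,
    sum_insert hq, sum_Dq_q hq, Nat.add_sub_cancel, add_comm]
  congr 1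
  refine sum_congr rfl fun v hv => ?_
  have hvq : v ≠ q := by rintro rfl; exact hq hv
  simp_rw [Dq_ne _ hvq]

theorem tr_Dq (hq : q ∉ sp D) : tr (Dq D i₀ q j) = tr D + Real.log (Nv q) := by
  classical
  unfold tr
  rw [sp_Dq hq, sum_insert hq, add_comm]

theorem rs_Dq (hq : q ∉ sp D) : rs (Dq D i₀ q j) = rs D + (Nv q)⁻¹ := by
  classical
  unfold rs
  rw [sp_Dq hq, sum_insert hq, add_comm]

theorem tl_Dq (hq : q ∉ sp D) :
    tl (Dq D i₀ q j) = gl D + j * Real.log (Nv q) + (tr D + Real.log (Nv q)) := by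
  rw [← gl_Dq (i₀ := i₀) hq, ← tr_Dq (i₀ := i₀) (j := j) hq]
  unfold gl
  ring

theorem Tp_Dq {r : ℕ} (hr : 1 ≤ r) (hq : q ∉ sp D) (h : Tp (Dl n r) D) :
    Tp (Dl n r) (Dq D i₀ q j) := by
  intro v
  by_cases hv : v = q
  · subst hv
    have h1 : (univ.filter fun i => Dq D i₀ v j i v ≠ 0) = {i₀} := by
      ext i
      rw [mem_filter, mem_singleton, Dq_q hq]
      by_cases hi : i = i₀
      · simp [hi]
      · simp [hi]
    rw [h1]
    simp only [Dl, mem_filter, mem_univ, true_and, card_singleton]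
    exact hr
  · have h1 : (univ.filter fun i => Dq D i₀ q j i v ≠ 0) = univ.filter fun i => D i v ≠ 0 := by
      refine filter_congr fun i _ => ?_
      rw [Dq_ne _ hv]
    rw [h1]
    exact h v

end Dq

/-! ### the ideals of a point -/

theorem isQ_unique {z : Fin n → K} {P P' : Fin n → Idl K} (hz : ∀ i, z i ≠ 0) (h : IsQ z P)
    (h' : IsQ z P') : P = P' := by
  funext i
  ext v
  have h1 := h i v
  rw [h' i v] at h1
  have h3 : 0 < ⨆ j, fv v (z j) := lt_of_lt_of_le ((fv v).pos (hz i))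
    (le_ciSup (f := fun j => fv v (z j)) (Set.finite_range _).bddAbove i)
  have h5 := Nv_zpow_inj v (mul_left_cancel₀ h3.ne' h1)
  omega

theorem D_eq {D E P : Fin n → Idl K} {z P₀ : ℝ} (sD : Sq D) (sE : Sq E)
    (hD : ∀ v ∈ sp D, z < Nv v ∧ Nv v ≤ P₀) (hE : ∀ v ∈ sp E, z < Nv v ∧ Nv v ≤ P₀)
    (h : ∀ v, z < Nv v → Nv v ≤ P₀ → (v ∈ sp D → ∀ i, P i v = D i v) ∧ (v ∉ sp D → ∑ i, P i v ≤ 1))
    (h' : ∀ v, z < Nv v → Nv v ≤ P₀ → (v ∈ sp E → ∀ i, P i v = E i v) ∧ (v ∉ sp E → ∑ i, P i v ≤ 1)) :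
    D = E := by
  have key : ∀ {A B : Fin n → Idl K}, Sq A → (∀ v ∈ sp A, z < Nv v ∧ Nv v ≤ P₀) →
      (∀ v, z < Nv v → Nv v ≤ P₀ → (v ∈ sp A → ∀ i, P i v = A i v) ∧ (v ∉ sp A → ∑ i, P i v ≤ 1)) →
      (∀ v, z < Nv v → Nv v ≤ P₀ → (v ∈ sp B → ∀ i, P i v = B i v) ∧ (v ∉ sp B → ∑ i, P i v ≤ 1)) →
      ∀ v, v ∈ sp A → v ∈ sp B := by
    intro A B sA hA hA1 hB1 v hv
    by_contra hn
    obtain ⟨h1, h2⟩ := hA v hv
    have h3 := (hA1 v h1 h2).1 hv
    have h4 := (hB1 v h1 h2).2 hn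
    simp_rw [h3] at h4
    have h5 := sum_pos_of_mem hv
    exact sA v (le_antisymm h4 h5)
  funext i
  ext v
  by_cases hv : v ∈ sp D
  · have hv' := key sD hD h h' v hv
    obtain ⟨h1, h2⟩ := hD v hv
    rw [← (h v h1 h2).1 hv i, ← (h' v h1 h2).1 hv' i]
  · have hv' : v ∉ sp E := fun h0 => hv (key sE hE h' h v h0)
    rw [not_mem_sp.1 hv i, not_mem_sp.1 hv' i]

theorem tr_nonneg (D : Fin n → Idl K) : 0 ≤ tr D := sum_nonneg fun v _ => (log_Nv_pos v).le

theorem log_le_tr {D : Fin n → Idl K} {v : Pr K} (hv : v ∈ sp D) : Real.log (Nv v) ≤ tr D :=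
  single_le_sum (f := fun v => Real.log (Nv v)) (fun v _ => (log_Nv_pos v).le) hv

/-- a large prime -/
theorem exists_prime (h1 : S_WINK K) (Y : ℝ) : ∃ q : Pr K, Y < Nv q := by
  have hcx := cx_Dl (n := 3) (r := 1) le_rfl le_rfl
  obtain ⟨Z₀, hZ₀, h⟩ := h1 3 (Dl 3 1) 1 (Nat.choose 3 1) (1 / 2) 1 hcx (by norm_num) (by norm_num)
    one_pos
  obtain ⟨F, hF, hs⟩ := h (max Z₀ (Y ^ 2)) (le_max_left _ _)
  have hZ1 : 1 < max Z₀ (Y ^ 2) := lt_max_of_lt_left hZ₀
  have hsq : Y ≤ √(max Z₀ (Y ^ 2)) := Real.le_sqrt_of_sq_le (le_max_right _ _)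
  by_contra hno
  push Not at hno
  have h0 : ∀ D ∈ F, D = 0 := by
    intro D hD
    funext i
    ext v
    by_contra hne
    have hv : v ∈ sp D := mem_sp.2 ⟨i, hne⟩
    have h2 := (hF D hD).2.2.1 v hv
    have h3 := hno v
    linarith
  have h2 : F ⊆ {0} := fun D hD => mem_singleton.2 (h0 D hD)
  have h3 : ∑ D ∈ F, Real.exp (-tr D) ≤ 1 := by
    refine (sum_le_sum_of_subset_of_nonneg h2 fun _ _ _ => (Real.exp_pos _).le).trans ?_
    rw [sum_singleton]
    exact Real.exp_le_one_iff.2 (by linarith [tr_nonneg (0 : Fin 3 → Idl K)])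
  have h4 : 1 < Real.exp ((1 - 1 / 2) * cst 1 (Nat.choose 3 1) *
      (max Z₀ (Y ^ 2) / Real.log (max Z₀ (Y ^ 2))) ^ (((1 : ℕ) : ℝ) / (((1 : ℕ) : ℝ) + 1))) := by
    apply Real.one_lt_exp_iff.2
    have h5 := cst_pos (r := 1) (t := Nat.choose 3 1) le_rfl hcx.2.1
    have h6 : 0 < Real.log (max Z₀ (Y ^ 2)) := Real.log_pos hZ1
    have h7 : 0 < max Z₀ (Y ^ 2) := by linarith
    positivity
  linarith

theorem lonk (K : Type) [Field K] [NumberField K] (h1 : S_WINK K) (h2 : S_LOWNK K) : S_LONK K := by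
  classical
  intro n κ ε C₀ hn hκ hκ3 hε hε1 hC₀
  obtain ⟨c₁, c, C₁, z₀, hc₁, hc, hC₁, hz₀, H2⟩ := h2 n hn
  set r : ℕ := n - 2 with hr
  have hr1 : 1 ≤ r := by omega
  have hcx := cx_Dl (n := n) hr1 (by omega)
  set e : ℝ := min (ε / 2) ((1 - 3 * κ) / 10) with he
  have hk3 : 0 < 1 - 3 * κ := by linarith
  have he0 : 0 < e := by positivity
  have he1 : e ≤ ε / 2 := min_le_left _ _
  have he2 : e ≤ (1 - 3 * κ) / 10 := min_le_right _ _
  obtain ⟨Z₀, hZ₀, H1⟩ := h1 n (Dl n r) r (n.choose r) e (c₁ / 2) hcx he0 (by linarith)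
    (by positivity)
  -- the prime `q`
  obtain ⟨q, hq⟩ := exists_prime h1 (max z₀ (2 / c₁))
  have hqz : z₀ < Nv q := (le_max_left _ _).trans_lt hq
  have hqc : (Nv q)⁻¹ ≤ c₁ / 2 := by
    have h3 : 2 / c₁ ≤ Nv q := (le_max_right _ _).trans hq.le
    have h4 : (0 : ℝ) < 2 / c₁ := by positivity
    calc (Nv q)⁻¹ ≤ (2 / c₁)⁻¹ := inv_anti₀ h4 h3
      _ = c₁ / 2 := inv_div _ _
  set lq : ℝ := Real.log (Nv q) with hlq
  have hlq0 : 0 < lq := log_Nv_pos q
  set ρ : ℝ := (r : ℝ) / (r + 1) with hρdef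
  have hr0 : (0 : ℝ) < r := by exact_mod_cast hr1
  have hρ : 0 < ρ := by positivity
  have hcst := cst_pos hr1 hcx.2.1
  have hρ2 : ((n : ℝ) - 2) / (n - 1) = ρ := by
    have h3 : (r : ℝ) = n - 2 := by
      rw [hr, Nat.cast_sub (by omega)]; norm_num
    rw [hρdef, h3]
    congr 1; ring
  -- the conditions on `X`
  have ev : ∀ᶠ X : ℝ in atTop, Z₀ ≤ κ * X ∧ (Nv q) ^ 2 ≤ κ * X ∧ lq / e ≤ κ * X ∧
      (3 * (C₀ + 2 * lq + e * C₀) + 2 * (e * C₀) + C₁) / ((1 - 3 * κ) / 2) ≤ X ∧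
      Real.exp 1 ≤ κ * X ∧
      (C₀ + 2 * lq - Real.log c) / (ε / 2 * cst r (n.choose r)) ≤
        (κ * X / Real.log X) ^ ρ ∧ 2 ≤ X := by
    have t1 : Tendsto (fun L : ℝ => κ * L) atTop atTop := tendsto_id.const_mul_atTop hκ
    exact (t1.eventually_ge_atTop _).and ((t1.eventually_ge_atTop _).and
      ((t1.eventually_ge_atTop _).and ((eventually_ge_atTop _).and
      ((t1.eventually_ge_atTop _).and (((tend_W hκ hρ).eventually_ge_atTop _).and
      (eventually_ge_atTop 2))))))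
  obtain ⟨X₁, hX₁⟩ := eventually_atTop.1 ev
  refine ⟨max 2 X₁, by have := le_max_left 2 X₁; linarith, fun X hX => ?_⟩
  obtain ⟨q1, q2, q3, q4, q5, q6, q7⟩ := hX₁ X ((le_max_right _ _).trans hX)
  set Z : ℝ := κ * X + C₀ with hZ
  have hZκ : κ * X ≤ Z := by linarith
  have hZ0 : 0 < Z := by linarith [Real.exp_pos 1]
  obtain ⟨F0, HF, Hsum⟩ := H1 Z (by linarith)
  set P₀ : ℝ := e * Z with hP₀
  have hP₀0 : 0 ≤ P₀ := by positivity
  have hqsq : Nv q ≤ √Z := Real.le_sqrt_of_sq_le (by linarith)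
  have hqP : Nv q ≤ Real.exp P₀ := by
    rw [← Real.log_le_iff_le_exp (Nv_pos q)]
    rw [div_le_iff₀ he0] at q3
    calc lq ≤ κ * X * e := q3
      _ ≤ Z * e := by gcongr
      _ = P₀ := mul_comm _ _
  have hspD : ∀ D ∈ F0, ∀ v ∈ sp D, √Z < Nv v ∧ Nv v ≤ Real.exp P₀ := by
    intro D hD v hv
    refine ⟨(HF D hD).2.2.1 v hv, ?_⟩
    rw [← Real.log_le_iff_le_exp (Nv_pos v)]
    exact (log_le_tr hv).trans (HF D hD).2.2.2.2.1
  have hqD : ∀ D ∈ F0, q ∉ sp D := by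
    intro D hD hv
    have := (hspD D hD q hv).1
    linarith
  set i₀ : Fin n := ⟨0, by omega⟩ with hi₀
  have hmain : ∀ D ∈ F0, ∃ F : Finset (Projectivization K (Fin n → K)),
      (∀ p ∈ F, (∑ i, p.rep i = 0 ∧ (∀ i, p.rep i ≠ 0) ∧ NVK p.rep ∧ Height.logHeight p.rep ≤ X ∧
        ∃ P, IsQ p.rep P ∧ tr P + C₀ ≤ ((n : ℝ) - κ) * Height.logHeight p.rep) ∧
        ∃ P, IsQ p.rep P ∧ ∀ v, √Z < Nv v → Nv v ≤ Real.exp P₀ →
          (v ∈ sp D → ∀ i, P i v = D i v) ∧ (v ∉ sp D → ∑ i, P i v ≤ 1)) ∧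
      c * Real.exp (((n : ℝ) - 1) * X - (Z + 2 * lq + tr D)) ≤ F.card := by
    intro D hD
    obtain ⟨b1, b2, b3, b4, b5, b6⟩ := HF D hD
    set j : ℕ := ⌊(Z - gl D) / lq⌋₊ + 1 with hj
    have hZg : 0 ≤ (Z - gl D) / lq := div_nonneg (by linarith) hlq0.le
    have hj1 : Z ≤ gl D + j * lq := by
      have h3 := (Nat.lt_floor_add_one ((Z - gl D) / lq)).le
      rw [div_le_iff₀ hlq0] at h3
      rw [hj]; push_cast; linarith
    have hj2 : gl D + j * lq ≤ Z + lq := by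
      have h3 := Nat.floor_le hZg
      rw [le_div_iff₀ hlq0] at h3
      rw [hj]; push_cast; linarith
    have hqn := hqD D hD
    have htl : tl (Dq D i₀ q j) ≤ Z + 2 * lq + tr D := by
      rw [tl_Dq hqn]; linarith
    obtain ⟨F, hF1, hF2⟩ := H2 X P₀ (Dq D i₀ q j) hP₀0 (Tp_Dq hr1 hqn b1) (by
        intro v hv
        rw [sp_Dq hqn, mem_insert] at hv
        rcases hv with rfl | hv
        · exact ⟨hqz, hqP⟩
        · obtain ⟨h3, h4⟩ := hspD D hD v hv
          exact ⟨by linarith, h4⟩)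
      (by rw [rs_Dq hqn]; linarith)
      (by
        have h3 : tr D ≤ e * Z := b5
        rw [div_le_iff₀ (by linarith)] at q4
        have h4 : e * (κ * X) ≤ (1 - 3 * κ) / 10 * X := by
          have h5 : κ * X ≤ X := by nlinarith
          calc e * (κ * X) ≤ e * X := by gcongr
            _ ≤ (1 - 3 * κ) / 10 * X := by gcongr
        have h6 : e * Z = e * (κ * X) + e * C₀ := by rw [hZ]; ring
        have h7 : Z = κ * X + C₀ := hZ
        have h8 : P₀ = e * Z := hP₀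
        linarith)
    refine ⟨F, ?_, ?_⟩
    · intro p hp
      obtain ⟨g1, g2, g3, g4, P, g5, g6, g7, g8⟩ := hF1 p hp
      refine ⟨⟨g1, g2, g3, g4, P, g5, ?_⟩, P, g5, ?_⟩
      · have h3 := gl_mono g6
        rw [gl_Dq hqn] at h3
        have h4 : tr P = tl P - gl P := by unfold gl; ring
        have h5 : κ * Height.logHeight p.rep ≤ κ * X := by gcongr
        rw [h4]
        linarith
      · intro v hv1 hv2
        have hvq : v ≠ q := by
          rintro rfl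
          linarith
        have h3 := g8 v (by linarith) hv2
        rw [sp_Dq hqn, mem_insert] at h3
        constructor
        · intro hv i
          rw [h3.1 (Or.inr hv) i, Dq_ne _ hvq]
        · intro hv
          exact h3.2 fun h4 => h4.elim hvq hv
    · refine le_trans ?_ hF2
      have h3 : ((n : ℝ) - 1) * X - (Z + 2 * lq + tr D) ≤ ((n : ℝ) - 1) * X - tl (Dq D i₀ q j) := by
        linarith
      gcongr
  choose! F G1 G2 using hmain
  refine ⟨F0.biUnion F, ?_, ?_⟩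
  · intro p hp
    obtain ⟨D, hD, hpD⟩ := mem_biUnion.1 hp
    exact (G1 D hD p hpD).1
  · have hdisj : ∀ D ∈ F0, ∀ D' ∈ F0, D ≠ D' → Disjoint (F D) (F D') := by
      intro D hD D' hD' hne
      rw [Finset.disjoint_left]
      intro p hp hp'
      obtain ⟨⟨-, g2, -⟩, P, g5, g6⟩ := G1 D hD p hp
      obtain ⟨-, P', g5', g6'⟩ := G1 D' hD' p hp'
      have hPP := isQ_unique g2 g5 g5'
      subst hPP
      exact hne (D_eq (HF D hD).2.1 (HF D' hD').2.1 (hspD D hD) (hspD D' hD') g6 g6')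
    rw [card_biUnion hdisj]
    push_cast
    have b1 : ∀ D ∈ F0, c * Real.exp (((n : ℝ) - 1) * X - (Z + 2 * lq)) * Real.exp (-tr D) ≤
        ((F D).card : ℝ) := by
      intro D hD
      refine le_trans (le_of_eq ?_) (G2 D hD)
      rw [mul_assoc, ← Real.exp_add]
      congr 2; ring
    refine le_trans ?_ (sum_le_sum b1)
    rw [← mul_sum]
    refine le_trans ?_ (mul_le_mul_of_nonneg_left Hsum (by positivity))
    have b2 : c * Real.exp (((n : ℝ) - 1) * X - (Z + 2 * lq)) =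
        Real.exp (Real.log c + (((n : ℝ) - 1) * X - (Z + 2 * lq))) := by
      rw [Real.exp_add, Real.exp_log hc]
    rw [b2, ← Real.exp_add]
    apply Real.exp_le_exp.2
    have b3 := W_mono hκ (by linarith : κ < 1) hρ q5 hZκ
    have b4 : 0 ≤ (κ * X / Real.log X) ^ ρ := by
      have : 0 < Real.log X := Real.log_pos (by linarith)
      have : 0 < κ * X := by linarith [Real.exp_pos 1]
      positivity
    rw [div_le_iff₀ (by positivity)] at q6
    rw [hρ2]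
    set W := (κ * X / Real.log X) ^ ρ
    set W' := (Z / Real.log Z) ^ ρ
    have b5 : (1 - e) * cst r (n.choose r) * W ≤ (1 - e) * cst r (n.choose r) * W' := by
      have : 0 < 1 - e := by linarith
      gcongr
    have b6 : (1 - ε / 2) * cst r (n.choose r) * W ≤ (1 - e) * cst r (n.choose r) * W := by
      gcongr
    have b7 : (1 - ε / 2) * cst r (n.choose r) * W = (1 - ε) * cst r (n.choose r) * W +
        W * (ε / 2 * cst r (n.choose r)) := by ring
    linarith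

end Pool.Agent.N297.KG
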