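import Pool.Agent.Y130.Fft
import Pool.Agent.N208.LC.Stm4

set_option autoImplicit false
set_option linter.unusedSectionVars false

/-!
# Invariants of all degrees of products of general linear groups

The invariant functions of words are combinations of products of contractions, by the first
fundamental theorem for the blocks (sign, place).
-/

open Finset Function Pool.Agent.TH125.Nod Pool.Agent.Y130

noncomputable section

namespace Pool.Agent.N297.LCCOREG

open Pool.Agent.N208.LC (Ix wt IsDel Prs S_COREG)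

/-! ### Components -/

section

variable {K : Type} [Field K] {B : Type} [Fintype B] [DecidableEq B] {ι : Type} [DecidableEq ι]
  {M : Type} [AddCommGroup M] [Module K M] {S : Type} [Fintype S] [DecidableEq S]

/-- the component of a form of a pattern -/
def cpt (κ : B → ι) (c : S → ι) (f : (S → B) → M) : (S → B) → M :=
  fun J => if (fun j => κ (J j)) = c then f J else 0

theorem cpt_sum [Fintype ι] (κ : B → ι) (f : (S → B) → M) : ∑ c : S → ι, cpt κ c f = f := by
  funext J
  rw [Finset.sum_apply]
  unfold cpt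
  rw [Finset.sum_ite_eq, if_pos (mem_univ _)]

theorem cpt_sup (κ : B → ι) (c : S → ι) (f : (S → B) → M) : Sup κ c (cpt κ c f) := by
  intro J hJ
  unfold cpt
  rw [if_neg]
  intro h
  exact hJ fun j => congrFun h j

theorem cpt_inv {κ : B → ι} {Q : Matrix B B K} {star : ι → ι} {s : K}
    (hstar : ∀ i, star (star i) = i) (hQb : ∀ a b, κ b ≠ star (κ a) → Q a b = 0)
    {f : (S → B) → M} (hf : InvS κ Q star s f) (c : S → ι) : InvS κ Q star s (cpt κ c f) := by
  intro u v huv J
  have key : ∀ j, (Q v (J j) • cpt κ c f (update J j u) -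
      (s * Q u (J j)) • cpt κ c f (update J j v)) =
      if (fun j => κ (J j)) = c then (Q v (J j) • f (update J j u) -
        (s * Q u (J j)) • f (update J j v)) else 0 := by
    intro j
    have hpat : ∀ z, κ z = κ (J j) → (fun i => κ (update J j z i)) = fun i => κ (J i) := by
      intro z hz
      funext i
      by_cases hi : i = j
      · subst hi
        rw [update_self, hz]
      · rw [update_of_ne hi]
    have e1 : Q v (J j) • cpt κ c f (update J j u) =
        if (fun j => κ (J j)) = c then Q v (J j) • f (update J j u) else 0 := by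
      by_cases h : κ (J j) = star (κ v)
      · unfold cpt
        rw [hpat u (by rw [h, huv, hstar])]
        split_ifs
        · rfl
        · rw [smul_zero]
      · rw [hQb v (J j) h, zero_smul, zero_smul, ite_self]
    have e2 : (s * Q u (J j)) • cpt κ c f (update J j v) =
        if (fun j => κ (J j)) = c then (s * Q u (J j)) • f (update J j v) else 0 := by
      by_cases h : κ (J j) = star (κ u)
      · unfold cpt
        rw [hpat v (by rw [h, huv])]
        split_ifs
        · rfl
        · rw [smul_zero]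
      · rw [hQb u (J j) h, mul_zero, zero_smul, zero_smul, ite_self]
    rw [e1, e2]
    split_ifs
    · rfl
    · rw [sub_zero]
  rw [Finset.sum_congr rfl fun j _ => key j]
  by_cases hc : (fun j => κ (J j)) = c
  · simp only [if_pos hc]
    exact hf u v huv J
  · simp only [if_neg hc, Finset.sum_const_zero]

end

/-! ### The blocks -/

/-- The indices without the types: the sign, the place, the position. -/
abbrev BB (P N : ℕ) : Type := Bool × Fin P × Fin N

/-- The block. -/
def kap {P N : ℕ} (x : BB P N) : Bool × Fin P := (x.1, x.2.1)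

/-- The dual block. -/
def str {P : ℕ} (c : Bool × Fin P) : Bool × Fin P := (!c.1, c.2)

/-- The form. -/
def QQ (P N : ℕ) : Matrix (BB P N) (BB P N) ℂ :=
  Matrix.of fun u v => if v = (!u.1, u.2) then 1 else 0

variable {P N : ℕ}

theorem str_str (c : Bool × Fin P) : str (str c) = c := by simp [str]

theorem str_ne (c : Bool × Fin P) : str c ≠ c := by
  intro h
  have := congrArg Prod.fst h
  simp [str] at this

theorem QQ_blk (a b : BB P N) (h : kap b ≠ str (kap a)) : QQ P N a b = 0 := by
  unfold QQ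
  rw [Matrix.of_apply, if_neg]
  rintro rfl
  exact h rfl

theorem flip_iff (a b : BB P N) : b = (!a.1, a.2) ↔ a = (!b.1, b.2) := by
  constructor
  · rintro rfl
    simp
  · intro h
    rw [h]
    simp

theorem QQ_sym (a b : BB P N) : QQ P N a b = ((1 : ℤ) : ℂ) * QQ P N b a := by
  simp only [QQ, Matrix.of_apply, Int.cast_one, one_mul, flip_iff a b]

theorem QQ_sq : QQ P N * QQ P N = 1 := by
  ext i j
  rw [Matrix.mul_apply, Matrix.one_apply]
  simp only [QQ, Matrix.of_apply, ite_mul, one_mul, zero_mul, Finset.sum_ite_eq',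
    Finset.mem_univ, if_true, Bool.not_not, Prod.mk.eta]
  simp only [eq_comm]

/-! ### The functions of words with given types -/

variable {T ι : Type} [DecidableEq T] [Fintype ι] [DecidableEq ι] {pl : T → Fin P}
  {F : (ι → Ix N T) → ℂ}

theorem movall (hF : Pool.Agent.N208.LC.Inv pl F) (b : Fin P) (p q : Fin N) (I : ι → Ix N T) :
    ∑ k ∈ Finset.univ.filter (fun k => (I k).1 = true ∧ (I k).2.1 = p ∧ pl (I k).2.2 = b),
        F (Function.update I k (true, q, (I k).2.2)) =
      ∑ k ∈ Finset.univ.filter (fun k => (I k).1 = false ∧ (I k).2.1 = q ∧ pl (I k).2.2 = b),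
        F (Function.update I k (false, p, (I k).2.2)) := by
  by_cases hpq : p = q
  · subst hpq
    have h1 : ∀ k ∈ Finset.univ.filter
        (fun k => (I k).1 = true ∧ (I k).2.1 = p ∧ pl (I k).2.2 = b),
        F (Function.update I k (true, p, (I k).2.2)) = F I := by
      intro k hk
      rw [Finset.mem_filter] at hk
      obtain ⟨-, h1, h2, -⟩ := hk
      have : ((true, p, (I k).2.2) : Ix N T) = I k := by
        rw [← h2]
        exact Prod.ext h1.symm rfl
      rw [this, update_eq_self]
    have h2 : ∀ k ∈ Finset.univ.filter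
        (fun k => (I k).1 = false ∧ (I k).2.1 = p ∧ pl (I k).2.2 = b),
        F (Function.update I k (false, p, (I k).2.2)) = F I := by
      intro k hk
      rw [Finset.mem_filter] at hk
      obtain ⟨-, h1, h2, -⟩ := hk
      have : ((false, p, (I k).2.2) : Ix N T) = I k := by
        rw [← h2]
        exact Prod.ext h1.symm rfl
      rw [this, update_eq_self]
    rw [Finset.sum_congr rfl h1, Finset.sum_congr rfl h2, Finset.sum_const, Finset.sum_const]
    by_cases hI : F I = 0
    · rw [hI, smul_zero, smul_zero]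
    · have := hF.bal I hI b p
      unfold wt at this
      congr 1
      omega
  · exact hF.mov b p q hpq I

/-- The function of words with the types `τ`. -/
def ft (pl : T → Fin P) (F : (ι → Ix N T) → ℂ) (τ : ι → T) : (ι → BB P N) → ℂ :=
  fun J => if ∀ k, pl (τ k) = (J k).2.1 then F (fun k => ((J k).1, (J k).2.2, τ k)) else 0

theorem ft_upd (τ : ι → T) (J : ι → BB P N) {j : ι} {a : Bool} {b : Fin P} {q : Fin N}
    (h : J j = (a, b, q)) (p : Fin N) :
    ft pl F τ (update J j (a, b, p)) = if ∀ k, pl (τ k) = (J k).2.1 then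
      F (update (fun k => ((J k).1, (J k).2.2, τ k)) j (a, p, τ j)) else 0 := by
  unfold ft
  have h1 : ∀ k, (update J j (a, b, p) k).2.1 = (J k).2.1 := by
    intro k
    by_cases hk : k = j
    · subst hk
      rw [update_self, h]
    · rw [update_of_ne hk]
  have h2 : (fun k => (((update J j (a, b, p) k).1, (update J j (a, b, p) k).2.2, τ k) : Ix N T)) =
      update (fun k => ((J k).1, (J k).2.2, τ k)) j (a, p, τ j) := by
    funext k
    by_cases hk : k = j
    · subst hk
      rw [update_self, update_self]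
    · rw [update_of_ne hk, update_of_ne hk]
  simp only [h1]
  rw [h2]

theorem ft_sum (τ : ι → T) (J : ι → BB P N) (a : Bool) (b : Fin P) (p q : Fin N) :
    ∑ j, QQ P N (!a, b, q) (J j) • ft pl F τ (update J j (a, b, p)) =
      if ∀ k, pl (τ k) = (J k).2.1 then
        ∑ k ∈ Finset.univ.filter (fun k => ((fun k => (((J k).1, (J k).2.2, τ k) : Ix N T)) k).1 = a ∧
          ((fun k => (((J k).1, (J k).2.2, τ k) : Ix N T)) k).2.1 = q ∧
          pl ((fun k => (((J k).1, (J k).2.2, τ k) : Ix N T)) k).2.2 = b),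
          F (Function.update (fun k => (((J k).1, (J k).2.2, τ k) : Ix N T)) k
            (a, p, ((fun k => (((J k).1, (J k).2.2, τ k) : Ix N T)) k).2.2))
      else 0 := by
  have h1 : ∀ j, QQ P N (!a, b, q) (J j) • ft pl F τ (update J j (a, b, p)) =
      if J j = (a, b, q) then (if ∀ k, pl (τ k) = (J k).2.1 then
      F (update (fun k => ((J k).1, (J k).2.2, τ k)) j (a, p, τ j)) else 0) else 0 := by
    intro j
    unfold QQ
    rw [Matrix.of_apply]
    simp only [Bool.not_not]
    by_cases h : J j = (a, b, q)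
    · rw [if_pos h, if_pos h, one_smul, ft_upd τ J h]
    · rw [if_neg h, if_neg h, zero_smul]
  rw [Finset.sum_congr rfl fun j _ => h1 j]
  by_cases hJ : ∀ k, pl (τ k) = (J k).2.1
  · simp only [if_pos hJ]
    rw [Finset.sum_filter]
    refine Finset.sum_congr rfl fun j _ => ?_
    have : J j = (a, b, q) ↔ ((J j).1 = a ∧ (J j).2.2 = q ∧ pl (τ j) = b) := by
      rw [hJ j]
      constructor
      · intro h
        rw [h]
        exact ⟨rfl, rfl, rfl⟩
      · rintro ⟨h1, h2, h3⟩
        exact Prod.ext h1 (Prod.ext h3 h2)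
    by_cases h : J j = (a, b, q)
    · rw [if_pos h, if_pos (this.1 h)]
    · rw [if_neg h, if_neg fun h' => h (this.2 h')]
  · simp only [if_neg hJ, ite_self, Finset.sum_const_zero]

theorem ft_inv (hF : Pool.Agent.N208.LC.Inv pl F) (τ : ι → T) :
    InvS (kap (P := P) (N := N)) (QQ P N) str ((1 : ℤ) : ℂ) (ft pl F τ) := by
  rintro ⟨a, b, p⟩ ⟨a', b', q⟩ huv J
  simp only [kap, str, Prod.mk.injEq] at huv
  obtain ⟨rfl, rfl⟩ := huv
  rw [Finset.sum_sub_distrib, sub_eq_zero]
  simp only [Int.cast_one, one_mul]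
  have h2 := ft_sum (pl := pl) (F := F) τ J (!a) b' q p
  rw [Bool.not_not] at h2
  rw [ft_sum, h2]
  by_cases hJ : ∀ k, pl (τ k) = (J k).2.1
  · rw [if_pos hJ, if_pos hJ]
    cases a
    · exact (movall hF b' p q _).symm
    · exact movall hF b' q p _
  · rw [if_neg hJ, if_neg hJ]

/-! ### Back to the words -/

/-- The extension of a function of words without types. -/
def ext (pl : T → Fin P) (τ : ι → T) : ((ι → BB P N) → ℂ) →ₗ[ℂ] ((ι → Ix N T) → ℂ) where
  toFun g := fun I => if (fun k => (I k).2.2) = τ then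
    g (fun k => ((I k).1, pl (τ k), (I k).2.1)) else 0
  map_add' g h := by
    funext I
    simp only [Pi.add_apply]
    split_ifs
    · rfl
    · rw [add_zero]
  map_smul' r g := by
    funext I
    simp only [Pi.smul_apply, RingHom.id_apply]
    split_ifs
    · rfl
    · rw [smul_zero]

theorem ext_ft [Fintype T] : ∑ τ : ι → T, ext pl τ (ft pl F τ) = F := by
  funext I
  rw [Finset.sum_apply]
  have h1 : ∀ τ : ι → T, ext pl τ (ft pl F τ) I = if (fun k => (I k).2.2) = τ then F I else 0 := by
    intro τ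
    change (if (fun k => (I k).2.2) = τ then
      ft pl F τ (fun k => ((I k).1, pl (τ k), (I k).2.1)) else 0) = _
    by_cases h : (fun k => (I k).2.2) = τ
    · rw [if_pos h, if_pos h]
      unfold ft
      rw [if_pos fun k => rfl]
      subst h
      rfl
    · rw [if_neg h, if_neg h]
  rw [Finset.sum_congr rfl fun τ _ => h1 τ, Finset.sum_ite_eq, if_pos (Finset.mem_univ _)]

/-- The support of the extension of a product. -/
def Cnd (pl : T → Fin P) (τ : ι → T) (c : ι → Bool × Fin P) {m : ℕ} (e : Fin m × Fin 2 ≃ ι)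
    (I : ι → Ix N T) : Prop :=
  (∀ j, (I j).2.2 = τ j) ∧ (∀ j, (I j).1 = (c j).1 ∧ pl (τ j) = (c j).2) ∧
    ∀ l, (I (e (l, 1))).1 = (!(I (e (l, 0))).1) ∧ pl (τ (e (l, 1))) = pl (τ (e (l, 0))) ∧
      (I (e (l, 1))).2.1 = (I (e (l, 0))).2.1

open Classical in
theorem ext_val (τ : ι → T) (c : ι → Bool × Fin P) {m : ℕ} (e : Fin m × Fin 2 ≃ ι) (w : ℂ)
    (I : ι → Ix N T) :
    ext pl τ (gen (kap (P := P) (N := N)) (QQ P N) c e w) I =
      if Cnd pl τ c e I then w else 0 := by
  have hx : ext pl τ (gen (kap (P := P) (N := N)) (QQ P N) c e w) I =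
      if (fun k => (I k).2.2) = τ then
        gen (kap (P := P) (N := N)) (QQ P N) c e w
          (fun k => ((I k).1, pl (τ k), (I k).2.1)) else 0 := by
    change (if (fun k => (I k).2.2) = τ then _ else _) = _
    split_ifs <;> rfl
  rw [hx]
  by_cases h0 : (fun k => (I k).2.2) = τ
  · rw [if_pos h0]
    unfold gen
    by_cases h1 : ∀ j, kap (((I j).1, pl (τ j), (I j).2.1) : BB P N) = c j
    · rw [if_pos h1]
      by_cases h2 : ∀ l, (((I (e (l, 1))).1, pl (τ (e (l, 1))), (I (e (l, 1))).2.1) : BB P N) =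
          (!(I (e (l, 0))).1, pl (τ (e (l, 0))), (I (e (l, 0))).2.1)
      · rw [Finset.prod_eq_one, one_smul, if_pos]
        · refine ⟨fun j => congrFun h0 j, fun j => ?_, fun l => ?_⟩
          · have := h1 j
            exact ⟨congrArg Prod.fst this, congrArg Prod.snd this⟩
          · have := h2 l
            simp only [Prod.mk.injEq] at this
            exact this
        · intro l _
          unfold QQ
          rw [Matrix.of_apply, if_pos (h2 l)]
      · obtain ⟨l, hl⟩ := not_forall.1 h2
        rw [Finset.prod_eq_zero (Finset.mem_univ l), zero_smul, if_neg]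
        · rintro ⟨-, -, h3⟩
          apply hl
          obtain ⟨h4, h5, h6⟩ := h3 l
          rw [h4, h5, h6]
        · unfold QQ
          rw [Matrix.of_apply, if_neg hl]
    · rw [if_neg h1, if_neg]
      rintro ⟨-, h3, -⟩
      exact h1 fun j => Prod.ext (h3 j).1 (h3 j).2
  · rw [if_neg h0, if_neg]
    rintro ⟨h3, -, -⟩
    exact h0 (funext h3)

theorem ext_gen {k : ℕ} (hcard : Fintype.card ι = 2 * k) (τ : ι → T) (c : ι → Bool × Fin P)
    {m : ℕ} (e : Fin m × Fin 2 ≃ ι) (w : ℂ) :
    ext pl τ (gen (kap (P := P) (N := N)) (QQ P N) c e w) ∈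
      Submodule.span ℂ (Prs (ι := ι) (N := N) pl k) := by
  classical
  have hm : m = k := by
    have := Fintype.card_congr e
    rw [Fintype.card_prod, Fintype.card_fin, Fintype.card_fin, hcard] at this
    omega
  subst hm
  by_cases h : (∀ l, (c (e (l, 1))).1 = (!(c (e (l, 0))).1)) ∧ (∀ j, pl (τ j) = (c j).2) ∧
      ∀ l, pl (τ (e (l, 0))) = pl (τ (e (l, 1)))
  · obtain ⟨hs, hp, hp'⟩ := h
    let G : (ι → Ix N T) → ℂ := fun I => ∏ l : Fin m,
      (if (I (e (l, 0))).1 = (c (e (l, 0))).1 ∧ (I (e (l, 1))).1 = (!(c (e (l, 0))).1) ∧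
        (I (e (l, 0))).2.2 = τ (e (l, 0)) ∧ (I (e (l, 1))).2.2 = τ (e (l, 1)) ∧
        (I (e (l, 0))).2.1 = (I (e (l, 1))).2.1 then 1 else 0)
    have hG : G ∈ Prs (ι := ι) (N := N) pl m :=
      ⟨e, fun l x y => if x.1 = (c (e (l, 0))).1 ∧ y.1 = (!(c (e (l, 0))).1) ∧
        x.2.2 = τ (e (l, 0)) ∧ y.2.2 = τ (e (l, 1)) ∧ x.2.1 = y.2.1 then 1 else 0,
        fun l => ⟨(c (e (l, 0))).1, τ (e (l, 0)), τ (e (l, 1)), hp' l, fun x y => rfl⟩,
        fun I => rfl⟩
    have hE : ext pl τ (gen (kap (P := P) (N := N)) (QQ P N) c e w) = w • G := by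
      funext I
      rw [ext_val]
      change _ = w * G I
      by_cases hc : Cnd pl τ c e I
      · rw [if_pos hc]
        obtain ⟨h1, h2, h3⟩ := hc
        change w = w * ∏ l : Fin m, _
        rw [Finset.prod_eq_one, mul_one]
        intro l _
        rw [if_pos]
        obtain ⟨h4, h5, h6⟩ := h3 l
        exact ⟨(h2 _).1, by rw [h4, (h2 _).1], h1 _, h1 _, h6.symm⟩
      · rw [if_neg hc]
        change 0 = w * ∏ l : Fin m, _
        have : ∃ l : Fin m, ¬ ((I (e (l, 0))).1 = (c (e (l, 0))).1 ∧
            (I (e (l, 1))).1 = (!(c (e (l, 0))).1) ∧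
            (I (e (l, 0))).2.2 = τ (e (l, 0)) ∧ (I (e (l, 1))).2.2 = τ (e (l, 1)) ∧
            (I (e (l, 0))).2.1 = (I (e (l, 1))).2.1) := by
          by_contra hn
          have hn' : ∀ l : Fin m, ((I (e (l, 0))).1 = (c (e (l, 0))).1 ∧
              (I (e (l, 1))).1 = (!(c (e (l, 0))).1) ∧
              (I (e (l, 0))).2.2 = τ (e (l, 0)) ∧ (I (e (l, 1))).2.2 = τ (e (l, 1)) ∧
              (I (e (l, 0))).2.1 = (I (e (l, 1))).2.1) := by
            intro l
            by_contra hl
            exact hn ⟨l, hl⟩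
          apply hc
          have hj : ∀ j, (I j).2.2 = τ j ∧ (I j).1 = (c j).1 := by
            intro j
            obtain ⟨⟨l, i⟩, rfl⟩ := e.surjective j
            obtain ⟨h1, h2, h3, h4, h5⟩ := hn' l
            fin_cases i
            · exact ⟨h3, h1⟩
            · exact ⟨h4, h2.trans (hs l).symm⟩
          refine ⟨fun j => (hj j).1, fun j => ⟨(hj j).2, hp j⟩, fun l => ?_⟩
          obtain ⟨h1, h2, h3, h4, h5⟩ := hn' l
          exact ⟨by rw [h2, h1], (hp' l).symm, h5.symm⟩
        obtain ⟨l, hl⟩ := this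
        rw [Finset.prod_eq_zero (Finset.mem_univ l) (if_neg hl), mul_zero]
    rw [hE]
    exact Submodule.smul_mem _ _ (Submodule.subset_span hG)
  · have h0 : ext pl τ (gen (kap (P := P) (N := N)) (QQ P N) c e w) = 0 := by
      funext I
      rw [ext_val, if_neg]
      · rfl
      · rintro ⟨h1, h2, h3⟩
        apply h
        refine ⟨fun l => ?_, fun j => (h2 j).2, fun l => (h3 l).2.1.symm⟩
        rw [← (h2 _).1, ← (h2 _).1]
        exact (h3 l).1
    rw [h0]
    exact Submodule.zero_mem _

/-- **LC/COREG.** -/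
theorem main : S_COREG := by
  intro P N k T ι _ _ _ _ pl hcard F hF
  rw [← ext_ft (pl := pl) (F := F)]
  refine Submodule.sum_mem _ fun τ _ => ?_
  have h1 : ∀ c : ι → Bool × Fin P, cpt (kap (P := P) (N := N)) c (ft pl F τ) ∈
      (Gen (kap (P := P) (N := N)) (QQ P N) c : Submodule ℂ ((ι → BB P N) → ℂ)) := by
    intro c
    refine fftS (s := 1) (Or.inl rfl) str_str QQ_blk QQ_blk QQ_sym QQ_sq (Fintype.card ι) ι c _
      rfl (cpt_sup _ c _) (cpt_inv str_str QQ_blk (ft_inv hF τ) c) ?_
    intro i _ hi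
    exact absurd hi (str_ne i)
  rw [← cpt_sum (kap (P := P) (N := N)) (ft pl F τ), map_sum]
  refine Submodule.sum_mem _ fun c _ => ?_
  have h3 : (Gen (kap (P := P) (N := N)) (QQ P N) c : Submodule ℂ ((ι → BB P N) → ℂ)) ≤
      (Submodule.span ℂ (Prs (ι := ι) (N := N) pl k)).comap (ext pl τ) := by
    refine Submodule.span_le.2 ?_
    rintro _ ⟨m, e, w, rfl⟩
    exact ext_gen hcard τ c e w
  exact h3 (h1 c)

end Pool.Agent.N297.LCCOREG
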