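import Pool.Agent.N979.P1.Dat

/-!
# PROJECT P1, task CHK: a computable test for the numerical conditions
-/

set_option autoImplicit false

namespace Pool.Agent.N297.P1K

open Pool.Agent.N979.P1

/-- the values, zero outside -/
def ex {n : ℕ} (f : Fin n → ℚ) (i : ℕ) : ℚ := if h : i < n then f ⟨i, h⟩ else 0

/-- sums -/
def sN (f : ℕ → ℚ) : ℕ → ℚ
  | 0 => 0
  | n + 1 => sN f n + f n

section

variable {N L : ℕ} (D : DatQ N L)

def mN (j i : ℕ) : ℚ := ex (fun jj => ex (D.m jj) i) j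

/-- sums over the radii -/
def cw (g : ℕ → ℚ) (J i : ℕ) : ℚ := sN (fun j => g j * mN D j i) J

def alN (g : ℕ → ℚ) (J l : ℕ) : ℚ := sN (fun i => cw D g J i * ex D.t i) l

def beN (g : ℕ → ℚ) (J l : ℕ) : ℚ :=
  D.ka + sN (fun j => g j * ex D.m0 j) J + (sN (cw D g J) L - sN (cw D g J) l)

/-- the ends of the sectors -/
def bs : ℕ → ℚ
  | 0 => 0
  | b + 1 => ex D.t b / (1 + ex D.t b ^ 2)

def bk : ℕ → ℚ
  | 0 => 0
  | b + 1 => if b < L then ex D.t b ^ 2 / (1 + ex D.t b ^ 2) else 1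

def gC (r : ℚ) (j : ℕ) : ℚ := 1 - ex D.ρ j / r

end

/-- intervals -/
def ad (x y : ℚ × ℚ) : ℚ × ℚ := (x.1 + y.1, x.2 + y.2)

def sb (x y : ℚ × ℚ) : ℚ × ℚ := (x.1 - y.2, x.2 - y.1)

def ml (x y : ℚ × ℚ) : ℚ × ℚ :=
  (min (min (x.1 * y.1) (x.1 * y.2)) (min (x.2 * y.1) (x.2 * y.2)),
   max (max (x.1 * y.1) (x.1 * y.2)) (max (x.2 * y.1) (x.2 * y.2)))

/-- linear forms -/
def ln (p q a b : ℕ → ℚ) (n : ℕ) : ℚ × ℚ :=
  (sN (fun i => p i + (if 0 ≤ q i then q i * a i else q i * b i)) n,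
   sN (fun i => p i + (if 0 ≤ q i then q i * b i else q i * a i)) n)

def piI : ℚ × ℚ := (314159265358979323846 / 10 ^ 20, 314159265358979323847 / 10 ^ 20)

def ok {N L : ℕ} (D : DatQ N L) (dlo dhi : Fin (L + 1) → ℚ) (J : Fin N) (r : ℚ)
    (l : Fin (L + 1) → ℚ) : Bool :=
  let a := ex dlo
  let b := ex dhi
  let w := ex l
  let A := alN D (fun _ => 1) (J.val + 1)
  let B := beN D (fun _ => 1) (J.val + 1)
  let A' := alN D (gC D r) (J.val + 1)
  let B' := beN D (gC D r) (J.val + 1)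
  let S := fun i => bs D (i + 1) - bs D i
  let K := fun i => bk D (i + 1) - bk D i
  let X00 := ln (fun i => S i / (2 * w i)) (fun i => 1 / (2 * w i)) a b (L + 1)
  let X01 := ln (fun i => (A' i * K i - B' i * S i) / (2 * w i)) (fun i => - B' i / (2 * w i)) a b (L + 1)
  let X11 := ln (fun i => (B' i ^ 2 * S i - A' i ^ 2 * S i - 2 * A' i * B' i * K i) / (2 * w i))
    (fun i => (A' i ^ 2 + B' i ^ 2) / (2 * w i)) a b (L + 1)
  let Y00 := ln (fun i => (A i ^ 2 * S i - B i ^ 2 * S i + 2 * A i * B i * K i) / (2 * w i))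
    (fun i => (A i ^ 2 + B i ^ 2) / (2 * w i)) a b (L + 1)
  let Y01 := ln (fun i => (B i * S i - A i * K i) / (2 * w i)) (fun i => - B i / (2 * w i)) a b (L + 1)
  let Y11 := ln (fun i => - S i / (2 * w i)) (fun i => 1 / (2 * w i)) a b (L + 1)
  let W := ln (fun _ => 0) w a b (L + 1)
  let T := ad (ad (ml X00 Y00) (ml (2, 2) (ml X01 Y01))) (ml X11 Y11)
  let P2 := ml piI piI
  decide (∀ i, 0 < l i) && decide (0 ≤ (sb piI (ml (2, 2) W)).1) &&
    decide (0 ≤ (sb (ml (2, 2) P2) T).1) &&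
    decide (0 ≤ (ad (sb (ml P2 P2) (ml P2 T))
      (ml (sb (ml X00 X11) (ml X01 X01)) (sb (ml Y00 Y11) (ml Y01 Y01)))).1)


/-! ### Correctness -/

theorem sN_eq (f : ℕ → ℚ) (n : ℕ) : sN f n = ∑ i ∈ Finset.range n, f i := by
  induction n with
  | zero => rfl
  | succ n ih => rw [Finset.sum_range_succ, ← ih]; rfl

theorem ex_val {n : ℕ} (f : Fin n → ℚ) (i : Fin n) : ex f i.val = f i := by
  unfold ex
  rw [dif_pos i.isLt]

theorem ex_out {n : ℕ} (f : Fin n → ℚ) {i : ℕ} (h : ¬ i < n) : ex f i = 0 := by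
  unfold ex
  rw [dif_neg h]

/-- membership -/
def Mm (x : ℝ) (I : ℚ × ℚ) : Prop := (I.1 : ℝ) ≤ x ∧ x ≤ (I.2 : ℝ)

theorem ad_mem {x y : ℝ} {I K : ℚ × ℚ} (hx : Mm x I) (hy : Mm y K) : Mm (x + y) (ad I K) := by
  obtain ⟨h1, h2⟩ := hx
  obtain ⟨h3, h4⟩ := hy
  unfold Mm ad
  push_cast
  exact ⟨by linarith, by linarith⟩

theorem sb_mem {x y : ℝ} {I K : ℚ × ℚ} (hx : Mm x I) (hy : Mm y K) : Mm (x - y) (sb I K) := by
  obtain ⟨h1, h2⟩ := hx
  obtain ⟨h3, h4⟩ := hy
  unfold Mm sb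
  push_cast
  exact ⟨by linarith, by linarith⟩

theorem lin_bd {a b x y : ℝ} (h1 : a ≤ x) (h2 : x ≤ b) :
    min (a * y) (b * y) ≤ x * y ∧ x * y ≤ max (a * y) (b * y) := by
  rcases le_total 0 y with h | h
  · exact ⟨min_le_of_left_le (mul_le_mul_of_nonneg_right h1 h),
      le_max_of_le_right (mul_le_mul_of_nonneg_right h2 h)⟩
  · exact ⟨min_le_of_right_le (mul_le_mul_of_nonpos_right h2 h),
      le_max_of_le_left (mul_le_mul_of_nonpos_right h1 h)⟩

theorem ml_mem {x y : ℝ} {I K : ℚ × ℚ} (hx : Mm x I) (hy : Mm y K) : Mm (x * y) (ml I K) := by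
  obtain ⟨h1, h2⟩ := hx
  obtain ⟨h3, h4⟩ := hy
  unfold Mm ml
  push_cast
  obtain ⟨k1, k2⟩ := lin_bd (y := y) h1 h2
  obtain ⟨k3, k4⟩ := lin_bd (y := (I.1 : ℝ)) h3 h4
  obtain ⟨k5, k6⟩ := lin_bd (y := (I.2 : ℝ)) h3 h4
  have e1 : (I.1 : ℝ) * (K.1 : ℝ) = K.1 * I.1 := mul_comm _ _
  have e2 : (I.1 : ℝ) * (K.2 : ℝ) = K.2 * I.1 := mul_comm _ _
  have e3 : (I.2 : ℝ) * (K.1 : ℝ) = K.1 * I.2 := mul_comm _ _
  have e4 : (I.2 : ℝ) * (K.2 : ℝ) = K.2 * I.2 := mul_comm _ _
  have e5 : (I.1 : ℝ) * y = y * I.1 := mul_comm _ _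
  have e6 : (I.2 : ℝ) * y = y * I.2 := mul_comm _ _
  rw [e1, e2, e3, e4]
  rw [e5, e6] at k1 k2
  exact ⟨(min_le_min k3 k5).trans k1, k2.trans (max_le_max k4 k6)⟩

theorem two_mem : Mm (2 : ℝ) (2, 2) := by
  unfold Mm
  norm_num

theorem pi_mem : Mm Real.pi piI := by
  unfold Mm piI
  have h1 := Real.pi_gt_d20
  have h2 := Real.pi_lt_d20
  push_cast
  constructor
  · norm_num at h1 ⊢
    linarith
  · norm_num at h2 ⊢
    linarith

theorem ln_mem {L : ℕ} (p q : ℕ → ℚ) (dlo dhi : Fin (L + 1) → ℚ) (d F : Fin (L + 1) → ℝ)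
    (hd : ∀ i, ((dlo i : ℚ) : ℝ) ≤ d i ∧ d i ≤ ((dhi i : ℚ) : ℝ))
    (hF : ∀ i : Fin (L + 1), F i = (p i.val : ℝ) + (q i.val : ℝ) * d i) :
    Mm (∑ i, F i) (ln p q (ex dlo) (ex dhi) (L + 1)) := by
  unfold Mm ln
  rw [sN_eq, sN_eq]
  rw [Finset.sum_range, Finset.sum_range]
  push_cast
  constructor
  · apply Finset.sum_le_sum
    intro i _
    rw [hF i, ex_val, ex_val]
    obtain ⟨h1, h2⟩ := hd i
    split_ifs with hq
    · have hq' : (0 : ℝ) ≤ q i.val := by exact_mod_cast hq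
      push_cast
      have := mul_le_mul_of_nonneg_left h1 hq'
      linarith
    · have hq' : (q i.val : ℝ) ≤ 0 := by
        have := (not_le.1 hq).le
        exact_mod_cast this
      push_cast
      have := mul_le_mul_of_nonpos_left h2 hq'
      linarith
  · apply Finset.sum_le_sum
    intro i _
    rw [hF i, ex_val, ex_val]
    obtain ⟨h1, h2⟩ := hd i
    split_ifs with hq
    · have hq' : (0 : ℝ) ≤ q i.val := by exact_mod_cast hq
      push_cast
      have := mul_le_mul_of_nonneg_left h2 hq'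
      linarith
    · have hq' : (q i.val : ℝ) ≤ 0 := by
        have := (not_le.1 hq).le
        exact_mod_cast this
      push_cast
      have := mul_le_mul_of_nonpos_left h1 hq'
      linarith

theorem range_fin {N n : ℕ} (hn : n ≤ N) (G : ℕ → ℝ) :
    ∑ j : Fin N, (if j.val < n then G j.val else 0) = ∑ j ∈ Finset.range n, G j := by
  rw [← Finset.sum_range (fun j => if j < n then G j else 0)]
  symm
  rw [Finset.sum_ite, Finset.sum_const_zero, add_zero]
  apply Finset.sum_congr _ (fun _ _ => rfl)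
  ext j
  rw [Finset.mem_filter, Finset.mem_range, Finset.mem_range]
  omega

section

variable {N L : ℕ} (D : DatQ N L)

theorem mN_val (j : Fin N) (i : Fin L) : mN D j.val i.val = D.m j i := by
  unfold mN
  rw [ex_val, ex_val]

theorem al_eq {J : ℕ} (hJ : J ≤ N) (g : ℕ → ℚ) (f : Fin N → ℝ)
    (hf : ∀ j, f j = if j.val < J then (g j.val : ℝ) else 0) (l : Fin (L + 1)) :
    D.toDat.al f l = (alN D g J l.val : ℝ) := by
  have h1 : ∀ j : Fin N, (∑ i : Fin L, if i.val < l.val then D.toDat.m j i * D.toDat.t i else 0) =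
      ∑ i ∈ Finset.range l.val, (mN D j.val i : ℝ) * (ex D.t i : ℝ) := by
    intro j
    rw [← range_fin (N := L) (by omega)]
    apply Finset.sum_congr rfl
    intro i _
    rw [mN_val, ex_val]
    rfl
  unfold Dat.al alN cw
  rw [sN_eq]
  push_cast
  have h2 : ∀ i, ((sN (fun j => g j * mN D j i) J : ℚ) : ℝ) =
      ∑ j ∈ Finset.range J, (g j : ℝ) * (mN D j i : ℝ) := by
    intro i
    rw [sN_eq]
    push_cast
    rfl
  have h3 : ∀ j : Fin N, f j * (∑ i : Fin L, if i.val < l.val then D.toDat.m j i * D.toDat.t i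
      else 0) = if j.val < J then (fun j : ℕ => (g j : ℝ) * ∑ i ∈ Finset.range l.val,
        (mN D j i : ℝ) * (ex D.t i : ℝ)) j.val else 0 := by
    intro j
    rw [h1 j, hf j]
    split_ifs
    · rfl
    · rw [zero_mul]
  rw [Finset.sum_congr rfl fun j _ => h3 j, range_fin hJ (fun j : ℕ => (g j : ℝ) *
    ∑ i ∈ Finset.range l.val, (mN D j i : ℝ) * (ex D.t i : ℝ))]
  simp only [h2, Finset.mul_sum, Finset.sum_mul]
  rw [Finset.sum_comm]
  apply Finset.sum_congr rfl
  intro i _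
  apply Finset.sum_congr rfl
  intro j _
  ring

theorem be_eq {J : ℕ} (hJ : J ≤ N) (g : ℕ → ℚ) (f : Fin N → ℝ)
    (hf : ∀ j, f j = if j.val < J then (g j.val : ℝ) else 0) (l : Fin (L + 1)) :
    D.toDat.be f l = (beN D g J l.val : ℝ) := by
  have h1 : ∀ j : Fin N, (∑ i : Fin L, if l.val ≤ i.val then D.toDat.m j i else 0) =
      ∑ i ∈ Finset.range L, (mN D j.val i : ℝ) - ∑ i ∈ Finset.range l.val, (mN D j.val i : ℝ) := by
    intro j
    rw [← range_fin (N := L) (n := l.val) (by omega), Finset.sum_range, ← Finset.sum_sub_distrib]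
    apply Finset.sum_congr rfl
    intro i _
    rw [mN_val]
    by_cases h : l.val ≤ i.val
    · rw [if_pos h, if_neg (by omega), sub_zero]
      rfl
    · rw [if_neg h, if_pos (by omega), sub_self]
  have h2 : ∀ i, ((cw D g J i : ℚ) : ℝ) =
      ∑ j ∈ Finset.range J, (g j : ℝ) * (mN D j i : ℝ) := by
    intro i
    unfold cw
    rw [sN_eq]
    push_cast
    rfl
  unfold Dat.be beN
  rw [sN_eq, sN_eq, sN_eq]
  push_cast
  have h3 : ∀ j : Fin N, f j * (D.toDat.m0 j + ∑ i : Fin L, if l.val ≤ i.val then D.toDat.m j i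
      else 0) = if j.val < J then (fun j : ℕ => (g j : ℝ) * ((ex D.m0 j : ℝ) +
        (∑ i ∈ Finset.range L, (mN D j i : ℝ) - ∑ i ∈ Finset.range l.val, (mN D j i : ℝ))))
        j.val else 0 := by
    intro j
    rw [h1 j, hf j]
    split_ifs
    · show _ = (g j.val : ℝ) * ((ex D.m0 j.val : ℝ) + _)
      rw [ex_val]
      rfl
    · rw [zero_mul]
  rw [Finset.sum_congr rfl fun j _ => h3 j, range_fin hJ (fun j : ℕ => (g j : ℝ) *
    ((ex D.m0 j : ℝ) + (∑ i ∈ Finset.range L, (mN D j i : ℝ) -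
      ∑ i ∈ Finset.range l.val, (mN D j i : ℝ))))]
  simp only [h2, mul_add, mul_sub, Finset.sum_add_distrib, Finset.sum_sub_distrib, Finset.mul_sum]
  rw [Finset.sum_comm (s := Finset.range J) (t := Finset.range L),
    Finset.sum_comm (s := Finset.range J) (t := Finset.range l.val)]
  have : D.toDat.ka = (D.ka : ℝ) := rfl
  rw [this]
  ring

theorem bs_succ (b : ℕ) : bs D (b + 1) = ex D.t b / (1 + ex D.t b ^ 2) := rfl

theorem bk_succ (b : ℕ) :
    bk D (b + 1) = if b < L then ex D.t b ^ 2 / (1 + ex D.t b ^ 2) else 1 := rfl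

theorem up_1 (i : Fin (L + 1)) : (up3 D.toDat.t i).2.1 = ((bs D (i.val + 1) : ℚ) : ℝ) := by
  rw [bs_succ]
  unfold up3
  split_ifs with h
  · have : ex D.t i.val = D.t ⟨i.val, h⟩ := ex_val D.t ⟨i.val, h⟩
    rw [this]
    push_cast
    rfl
  · rw [ex_out _ h]
    simp

theorem up_2 (i : Fin (L + 1)) : (up3 D.toDat.t i).2.2 = ((bk D (i.val + 1) : ℚ) : ℝ) := by
  rw [bk_succ]
  unfold up3
  split_ifs with h
  · have : ex D.t i.val = D.t ⟨i.val, h⟩ := ex_val D.t ⟨i.val, h⟩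
    rw [this]
    push_cast
    rfl
  · simp

theorem lo_1 (i : Fin (L + 1)) : (lo3 D.toDat.t i).2.1 = ((bs D i.val : ℚ) : ℝ) := by
  obtain ⟨i, hi⟩ := i
  cases i with
  | zero =>
    unfold lo3
    rw [dif_neg (by simp)]
    simp [bs]
  | succ i =>
    unfold lo3
    rw [dif_pos (by simp)]
    have h : i < L := by omega
    have : ex D.t i = D.t ⟨i, h⟩ := ex_val D.t ⟨i, h⟩
    show _ = ((bs D (i + 1) : ℚ) : ℝ)
    rw [bs_succ, this]
    push_cast
    rfl

theorem lo_2 (i : Fin (L + 1)) : (lo3 D.toDat.t i).2.2 = ((bk D i.val : ℚ) : ℝ) := by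
  obtain ⟨i, hi⟩ := i
  cases i with
  | zero =>
    unfold lo3
    rw [dif_neg (by simp)]
    simp [bk]
  | succ i =>
    unfold lo3
    rw [dif_pos (by simp)]
    have h : i < L := by omega
    have : ex D.t i = D.t ⟨i, h⟩ := ex_val D.t ⟨i, h⟩
    show _ = ((bk D (i + 1) : ℚ) : ℝ)
    rw [bk_succ, if_pos h, this]
    push_cast
    rfl

end

theorem main : S_CHK @ok := by
  intro N L D dlo dhi J r l hok hd
  unfold ok at hok
  simp only [Bool.and_eq_true, decide_eq_true_eq] at hok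
  obtain ⟨⟨⟨h1, h2⟩, h3⟩, h4⟩ := hok
  have hJ : J.val + 1 ≤ N := J.isLt
  have eA : ∀ i, D.toDat.al (fA (J.val + 1)) i = (alN D (fun _ => 1) (J.val + 1) i.val : ℝ) := by
    intro i
    apply al_eq D hJ
    intro j
    unfold fA
    split_ifs <;> simp
  have eB : ∀ i, D.toDat.be (fA (J.val + 1)) i = (beN D (fun _ => 1) (J.val + 1) i.val : ℝ) := by
    intro i
    apply be_eq D hJ
    intro j
    unfold fA
    split_ifs <;> simp
  have hC : ∀ j : Fin N, fC D.toDat (J.val + 1) (r : ℝ) j =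
      if j.val < J.val + 1 then (gC D r j.val : ℝ) else 0 := by
    intro j
    unfold fC gC
    rw [ex_val]
    split_ifs
    · push_cast
      rfl
    · rfl
  have eA' : ∀ i, D.toDat.al (fC D.toDat (J.val + 1) (r : ℝ)) i =
      (alN D (gC D r) (J.val + 1) i.val : ℝ) := fun i => al_eq D hJ _ _ hC i
  have eB' : ∀ i, D.toDat.be (fC D.toDat (J.val + 1) (r : ℝ)) i =
      (beN D (gC D r) (J.val + 1) i.val : ℝ) := fun i => be_eq D hJ _ _ hC i
  have hl : ∀ i, (0 : ℝ) < l i := fun i => by exact_mod_cast h1 i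
  have hIcc : ∀ i, Icc2 D.toDat.t i = (Dl D.toDat.t i +
      (((bs D (i.val + 1) : ℚ) : ℝ) - ((bs D i.val : ℚ) : ℝ))) / 2 := by
    intro i
    unfold Icc2
    rw [up_1, lo_1]
  have hIss : ∀ i, Iss2 D.toDat.t i = (Dl D.toDat.t i -
      (((bs D (i.val + 1) : ℚ) : ℝ) - ((bs D i.val : ℚ) : ℝ))) / 2 := by
    intro i
    unfold Iss2
    rw [up_1, lo_1]
  have hIcs : ∀ i, Ics2 D.toDat.t i =
      (((bk D (i.val + 1) : ℚ) : ℝ) - ((bk D i.val : ℚ) : ℝ)) / 2 := by
    intro i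
    unfold Ics2
    rw [up_2, lo_2]
  refine ⟨hl, ?_, ?_⟩
  · have hW := ln_mem (fun _ => 0) (ex l) dlo dhi (Dl D.toDat.t)
      (fun i => (l i : ℝ) * Dl D.toDat.t i) hd (by
        intro i
        rw [ex_val]
        push_cast
        ring)
    have h5 := sb_mem pi_mem (ml_mem two_mem hW)
    have h6 : (0 : ℝ) ≤ Real.pi - 2 * ∑ i, (l i : ℝ) * Dl D.toDat.t i := by
      refine le_trans ?_ h5.1
      exact_mod_cast h2
    linarith
  · intro X00 X01 X11 Y00 Y01 Y11 e1 e2 e3 e4 e5 e6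
    have m1 := ln_mem (fun i => (bs D (i + 1) - bs D i) / (2 * ex l i))
      (fun i => 1 / (2 * ex l i)) dlo dhi (Dl D.toDat.t)
      (fun i => Icc2 D.toDat.t i / (l i : ℝ)) hd (by
        intro i
        have := (hl i).ne'
        simp only [hIcc, ex_val]
        push_cast
        field_simp
        ring)
    have m2 := ln_mem (fun i => (alN D (gC D r) (J.val + 1) i * (bk D (i + 1) - bk D i) -
        beN D (gC D r) (J.val + 1) i * (bs D (i + 1) - bs D i)) / (2 * ex l i))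
      (fun i => - beN D (gC D r) (J.val + 1) i / (2 * ex l i)) dlo dhi (Dl D.toDat.t)
      (fun i => (D.toDat.al (fC D.toDat (J.val + 1) (r : ℝ)) i * Ics2 D.toDat.t i -
        D.toDat.be (fC D.toDat (J.val + 1) (r : ℝ)) i * Icc2 D.toDat.t i) / (l i : ℝ)) hd (by
        intro i
        have := (hl i).ne'
        simp only [hIcc, hIcs, eA', eB', ex_val]
        push_cast
        field_simp
        ring)
    have m3 := ln_mem (fun i => (beN D (gC D r) (J.val + 1) i ^ 2 * (bs D (i + 1) - bs D i) -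
        alN D (gC D r) (J.val + 1) i ^ 2 * (bs D (i + 1) - bs D i) -
        2 * alN D (gC D r) (J.val + 1) i * beN D (gC D r) (J.val + 1) i *
          (bk D (i + 1) - bk D i)) / (2 * ex l i))
      (fun i => (alN D (gC D r) (J.val + 1) i ^ 2 + beN D (gC D r) (J.val + 1) i ^ 2) /
        (2 * ex l i)) dlo dhi (Dl D.toDat.t)
      (fun i => (D.toDat.al (fC D.toDat (J.val + 1) (r : ℝ)) i ^ 2 * Iss2 D.toDat.t i -
        2 * D.toDat.al (fC D.toDat (J.val + 1) (r : ℝ)) i *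
          D.toDat.be (fC D.toDat (J.val + 1) (r : ℝ)) i * Ics2 D.toDat.t i +
        D.toDat.be (fC D.toDat (J.val + 1) (r : ℝ)) i ^ 2 * Icc2 D.toDat.t i) / (l i : ℝ)) hd (by
        intro i
        have := (hl i).ne'
        simp only [hIcc, hIss, hIcs, eA', eB', ex_val]
        push_cast
        field_simp
        ring)
    have m4 := ln_mem (fun i => (alN D (fun _ => 1) (J.val + 1) i ^ 2 * (bs D (i + 1) - bs D i) -
        beN D (fun _ => 1) (J.val + 1) i ^ 2 * (bs D (i + 1) - bs D i) +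
        2 * alN D (fun _ => 1) (J.val + 1) i * beN D (fun _ => 1) (J.val + 1) i *
          (bk D (i + 1) - bk D i)) / (2 * ex l i))
      (fun i => (alN D (fun _ => 1) (J.val + 1) i ^ 2 + beN D (fun _ => 1) (J.val + 1) i ^ 2) /
        (2 * ex l i)) dlo dhi (Dl D.toDat.t)
      (fun i => (D.toDat.al (fA (J.val + 1)) i ^ 2 * Icc2 D.toDat.t i +
        2 * D.toDat.al (fA (J.val + 1)) i * D.toDat.be (fA (J.val + 1)) i * Ics2 D.toDat.t i +
        D.toDat.be (fA (J.val + 1)) i ^ 2 * Iss2 D.toDat.t i) / (l i : ℝ)) hd (by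
        intro i
        have := (hl i).ne'
        simp only [hIcc, hIss, hIcs, eA, eB, ex_val]
        push_cast
        field_simp
        ring)
    have m5 := ln_mem (fun i => (beN D (fun _ => 1) (J.val + 1) i * (bs D (i + 1) - bs D i) -
        alN D (fun _ => 1) (J.val + 1) i * (bk D (i + 1) - bk D i)) / (2 * ex l i))
      (fun i => - beN D (fun _ => 1) (J.val + 1) i / (2 * ex l i)) dlo dhi (Dl D.toDat.t)
      (fun i => -((D.toDat.al (fA (J.val + 1)) i * Ics2 D.toDat.t i +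
        D.toDat.be (fA (J.val + 1)) i * Iss2 D.toDat.t i) / (l i : ℝ))) hd (by
        intro i
        have := (hl i).ne'
        simp only [hIss, hIcs, eA, eB, ex_val]
        push_cast
        field_simp
        ring)
    have m6 := ln_mem (fun i => -(bs D (i + 1) - bs D i) / (2 * ex l i))
      (fun i => 1 / (2 * ex l i)) dlo dhi (Dl D.toDat.t)
      (fun i => Iss2 D.toDat.t i / (l i : ℝ)) hd (by
        intro i
        have := (hl i).ne'
        simp only [hIss, ex_val]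
        push_cast
        field_simp
        ring)
    rw [Finset.sum_neg_distrib] at m5
    rw [← e1] at m1
    rw [← e2] at m2
    rw [← e3] at m3
    rw [← e4] at m4
    rw [← e5] at m5
    rw [← e6] at m6
    have mT := ad_mem (ad_mem (ml_mem m1 m4) (ml_mem two_mem (ml_mem m2 m5))) (ml_mem m3 m6)
    have mP := ml_mem pi_mem pi_mem
    have q1 := sb_mem (ml_mem two_mem mP) mT
    have q2 := ad_mem (sb_mem (ml_mem mP mP) (ml_mem mP mT))
      (ml_mem (sb_mem (ml_mem m1 m3) (ml_mem m2 m2)) (sb_mem (ml_mem m4 m6) (ml_mem m5 m5)))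
    have h3' : (0 : ℝ) ≤ 2 * (Real.pi * Real.pi) -
        (X00 * Y00 + 2 * (X01 * Y01) + X11 * Y11) := by
      refine le_trans ?_ q1.1
      exact_mod_cast h3
    have h4' : (0 : ℝ) ≤ Real.pi * Real.pi * (Real.pi * Real.pi) - Real.pi * Real.pi *
        (X00 * Y00 + 2 * (X01 * Y01) + X11 * Y11) +
        (X00 * X11 - X01 * X01) * (Y00 * Y11 - Y01 * Y01) := by
      refine le_trans ?_ q2.1
      exact_mod_cast h4
    constructor
    · have : Real.pi ^ 2 = Real.pi * Real.pi := sq _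
      rw [this]
      linarith
    · have f1 : Real.pi ^ 4 = Real.pi * Real.pi * (Real.pi * Real.pi) := by ring
      have f2 : Real.pi ^ 2 = Real.pi * Real.pi := sq _
      have f3 : X01 ^ 2 = X01 * X01 := sq _
      have f4 : Y01 ^ 2 = Y01 * Y01 := sq _
      rw [f1, f2, f3, f4]
      exact h4'

end Pool.Agent.N297.P1K
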